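import Pool.Agent.R852.BC.Bur
import Pool.Agent.H510R2.Div
import Pool.Agent.H374R2.Z.MP

set_option autoImplicit false
set_option maxHeartbeats 4000000

/-! Burgess' bound for real characters modulo `8 N` (after `Pool.Agent.R502.BL.Bur`). -/

namespace Pool.Agent.R852.BC

open Finset Filter Pool.Agent.H471R4.BW

lemma KK_le (s : ℕ) (ε : ℝ) (hε : 0 < ε) : ∃ C : ℝ, 0 < C ∧ ∀ N : ℕ, 1 ≤ N →
    KK 8 N s ≤ C * (N : ℝ) ^ ε := by
  obtain ⟨k, hk⟩ : ∃ k : ℕ, (10 * s : ℝ) ≤ 2 ^ k := by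
    obtain ⟨k, hk⟩ := pow_unbounded_of_one_lt (10 * s : ℝ) (by norm_num : (1 : ℝ) < 2)
    exact ⟨k, hk.le⟩
  set e : ℕ := k + (2 * s - 1) with he
  obtain ⟨C, hC0, hC⟩ := Pool.Agent.H510R2.divisor_bound (ε / (e + 1)) (by positivity)
  refine ⟨8 * (2 * s * 2 ^ (2 * s - 1)) * (C ^ e) + 1, by positivity, fun N hN => ?_⟩
  have hN1 : (1 : ℝ) ≤ N := by exact_mod_cast hN
  have hτ := hC N hN
  set τ : ℝ := (N.divisors.card : ℝ) with hτd
  have hτ0 : 0 ≤ τ := Nat.cast_nonneg _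
  have h2 : (2 : ℝ) ^ N.primeFactors.card ≤ τ := by
    rw [hτd]
    exact_mod_cast Pool.Agent.H374R2.Z.MP.two_pow_le (by omega : N ≠ 0)
  have h3 : (10 * s : ℝ) ^ N.primeFactors.card ≤ τ ^ k := by
    calc (10 * s : ℝ) ^ N.primeFactors.card ≤ (2 ^ k) ^ N.primeFactors.card :=
          pow_le_pow_left₀ (by positivity) hk _
      _ = ((2 : ℝ) ^ N.primeFactors.card) ^ k := by rw [← pow_mul, ← pow_mul, mul_comm]
      _ ≤ τ ^ k := pow_le_pow_left₀ (by positivity) h2 _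
  have h4 : KK 8 N s ≤ 8 * (2 * s * 2 ^ (2 * s - 1)) * τ ^ e := by
    unfold KK
    rw [← hτd, he, pow_add, mul_pow 2 τ]
    calc (8 : ℕ) * (10 * s : ℝ) ^ N.primeFactors.card * (2 * s * (2 ^ (2 * s - 1) * τ ^ (2 * s - 1)))
        ≤ (8 : ℕ) * τ ^ k * (2 * s * (2 ^ (2 * s - 1) * τ ^ (2 * s - 1))) := by gcongr
      _ = 8 * (2 * s * 2 ^ (2 * s - 1)) * (τ ^ k * τ ^ (2 * s - 1)) := by push_cast; ring
  have h5 : τ ^ e ≤ C ^ e * (N : ℝ) ^ ε := by
    calc τ ^ e ≤ (C * (N : ℝ) ^ (ε / (e + 1))) ^ e := pow_le_pow_left₀ hτ0 hτ _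
      _ = C ^ e * (N : ℝ) ^ (ε / (e + 1) * e) := by
          rw [mul_pow, ← Real.rpow_natCast ((N : ℝ) ^ (ε / (e + 1))), ← Real.rpow_mul (by linarith)]
      _ ≤ C ^ e * (N : ℝ) ^ ε := by
          refine mul_le_mul_of_nonneg_left ?_ (by positivity)
          apply Real.rpow_le_rpow_of_exponent_le hN1
          rw [div_mul_eq_mul_div, div_le_iff₀ (by positivity)]
          nlinarith
  have hNε : 0 ≤ (N : ℝ) ^ ε := Real.rpow_nonneg (by linarith) _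
  calc KK 8 N s ≤ 8 * (2 * s * 2 ^ (2 * s - 1)) * τ ^ e := h4
    _ ≤ 8 * (2 * s * 2 ^ (2 * s - 1)) * (C ^ e * (N : ℝ) ^ ε) :=
        mul_le_mul_of_nonneg_left h5 (by positivity)
    _ ≤ _ := by nlinarith

/-- **Burgess' bound with a power saving** for the characters modulo `8 N`, `N` odd and squarefree, which are the
product of the Jacobi symbol modulo `N` and a character modulo `8`. -/
theorem bur8 (η : ℝ) (hη : 0 < η) : ∃ δ : ℝ, 0 < δ ∧ ∀ᶠ q : ℕ in atTop, ∀ (N : ℕ) [NeZero N], q = 8 * N →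
    Odd N → Squarefree N → ∀ (ψ : DirichletCharacter ℂ 8) (X : ℕ), (q : ℝ) ^ (1 / 4 + η) ≤ X →
      (X : ℝ) ≤ (q : ℝ) ^ (1 / 2 + δ) → ‖shortSum (8 * N) (chi 8 N ψ) X‖ ≤ (q : ℝ) ^ (-δ) * X := by
  obtain ⟨r, hr⟩ := exists_nat_ge (1 / (2 * η) + 1)
  have hr1 : (1 : ℝ) ≤ r := by
    have : 0 < 1 / (2 * η) := by positivity
    linarith
  have hr1' : 1 ≤ r := by exact_mod_cast hr1
  have hrη : 1 / (2 * (r : ℝ)) ≤ η := by
    rw [div_le_iff₀ (by positivity)]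
    have h1 : 1 / (2 * η) ≤ r := by linarith
    rw [div_le_iff₀ (by positivity)] at h1
    linarith
  set δ : ℝ := min (1 / 8) (min (η / (2 * (2 * r + 1))) (1 / (4 * (r : ℝ)))) with hδ
  have hδ0 : 0 < δ := by
    apply lt_min (by norm_num)
    apply lt_min <;> positivity
  have hδ8 : δ ≤ 1 / 8 := min_le_left _ _
  have hδη : δ ≤ η / (2 * (2 * r + 1)) := (min_le_right _ _).trans (min_le_left _ _)
  have hδr : δ ≤ 1 / (4 * (r : ℝ)) := (min_le_right _ _).trans (min_le_right _ _)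
  refine ⟨δ, hδ0, ?_⟩
  have tc : Tendsto (fun q : ℕ => (q : ℝ)) atTop atTop := tendsto_natCast_atTop_atTop
  have f1 : ∀ᶠ x : ℝ in atTop, 6400 ≤ x ^ (1 / 8 : ℝ) :=
    (tendsto_rpow_atTop (by norm_num : (0 : ℝ) < 1 / 8)).eventually_ge_atTop _
  have f2 : ∀ᶠ x : ℝ in atTop, 256 * Real.log x ^ 2 ≤ x ^ (1 / 8 : ℝ) := by
    have h1 := (isLittleO_log_rpow_rpow_atTop (2 : ℝ) (show (0 : ℝ) < 1 / 8 by norm_num)).def
      (show (0 : ℝ) < 1 / 256 by norm_num)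
    filter_upwards [h1, eventually_ge_atTop 1] with x hx hx1
    have h2 : 0 ≤ Real.log x := Real.log_nonneg hx1
    rw [Real.norm_eq_abs, Real.norm_eq_abs, abs_of_nonneg (by positivity), abs_of_nonneg (by positivity)] at hx
    have h3 : Real.log x ^ (2 : ℝ) = Real.log x ^ 2 := by
      rw [← Real.rpow_natCast]; norm_num
    rw [h3] at hx
    linarith
  obtain ⟨CK, hCK0, hCK⟩ := KK_le r (η / 4) (by positivity)
  have f3 : ∀ᶠ x : ℝ in atTop, 3 * ((r : ℝ) ^ (2 * r) + CK) * 128 * 2 ^ (2 * r) * Real.log x ≤ x ^ (η / 4) := by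
    set c : ℝ := 3 * ((r : ℝ) ^ (2 * r) + CK) * 128 * 2 ^ (2 * r) with hc
    have hc0 : 0 < c := by positivity
    have h1 := (isLittleO_log_rpow_atTop (show (0 : ℝ) < η / 4 by positivity)).def
      (show (0 : ℝ) < 1 / c by positivity)
    filter_upwards [h1, eventually_ge_atTop 1] with x hx hx1
    have h2 : 0 ≤ Real.log x := Real.log_nonneg hx1
    rw [Real.norm_eq_abs, Real.norm_eq_abs, abs_of_nonneg h2, abs_of_nonneg (by positivity)] at hx
    calc c * Real.log x ≤ c * (1 / c * x ^ (η / 4)) := by gcongr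
      _ = x ^ (η / 4) := by field_simp
  filter_upwards [tc.eventually f1, tc.eventually f2, tc.eventually f3, eventually_ge_atTop 3]
    with q g1 g2 g3 hq3
  intro N _ hqN hodd hsq ψ X hX1 hX2
  subst hqN
  have hN0 : N ≠ 0 := NeZero.ne N
  have : NeZero (8 * N) := ⟨by omega⟩
  set q : ℕ := 8 * N with hqdef
  have hq3r : (3 : ℝ) ≤ q := by exact_mod_cast hq3
  have hq0 : (0 : ℝ) < q := by linarith
  have hq1 : (1 : ℝ) ≤ q := by linarith
  have hdl : (q : ℝ) ^ (1 / 8 : ℝ) ≤ (q : ℝ) ^ (-δ) * (q : ℝ) ^ (1 / 4 : ℝ) := by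
    rw [← Real.rpow_add hq0]
    exact Real.rpow_le_rpow_of_exponent_le hq1 (by linarith)
  have hdel1 : (q : ℝ) ^ (-δ) ≤ 1 := Real.rpow_le_one_of_one_le_of_nonpos hq1 (by linarith)
  have hKN : KK 8 N r ≤ CK * (q : ℝ) ^ (η / 4) := by
    refine (hCK N (by omega)).trans ?_
    refine mul_le_mul_of_nonneg_left ?_ hCK0.le
    apply Real.rpow_le_rpow (Nat.cast_nonneg _) _ (by positivity)
    rw [hqdef]
    exact_mod_cast (by omega : N ≤ 8 * N)
  apply bur_core ((q : ℝ) ^ (-δ)) η (KK 8 N r)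
    (Real.rpow_pos_of_pos hq0 _) hdel1 hη (KK_nonneg 8 N r) r hr1' hrη q hq3r
  · linarith
  · linarith
  · have h1 : ((q : ℝ) ^ (-δ) / 2) ^ (2 * r) * (q : ℝ) ^ (-δ) = (q : ℝ) ^ (-((2 * r + 1) * δ)) / 2 ^ (2 * r) := by
      rw [div_pow, ← Real.rpow_natCast ((q : ℝ) ^ (-δ)), ← Real.rpow_mul hq0.le, div_mul_eq_mul_div, ← Real.rpow_add hq0]
      congr 2
      push_cast
      ring
    rw [h1]
    have h2 : (q : ℝ) ^ (η / 2) ≤ (q : ℝ) ^ (-((2 * r + 1) * δ)) * (q : ℝ) ^ η := by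
      rw [← Real.rpow_add hq0]
      apply Real.rpow_le_rpow_of_exponent_le hq1
      have h3 : (2 * (r : ℝ) + 1) * δ ≤ (2 * r + 1) * (η / (2 * (2 * r + 1))) := by gcongr
      have h4 : (2 * (r : ℝ) + 1) * (η / (2 * (2 * r + 1))) = η / 2 := by field_simp
      linarith
    rw [div_mul_eq_mul_div, le_div_iff₀ (by positivity)]
    have hlog0 : 0 ≤ Real.log q := Real.log_nonneg hq1
    have hqe : (1 : ℝ) ≤ (q : ℝ) ^ (η / 4) := Real.one_le_rpow hq1 (by positivity)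
    have hr0 : 0 ≤ (r : ℝ) ^ (2 * r) := by positivity
    have hKK : (r : ℝ) ^ (2 * r) + KK 8 N r ≤ ((r : ℝ) ^ (2 * r) + CK) * (q : ℝ) ^ (η / 4) := by
      nlinarith
    calc 3 * ((r : ℝ) ^ (2 * r) + KK 8 N r) * 128 * Real.log q * 2 ^ (2 * r)
        ≤ 3 * (((r : ℝ) ^ (2 * r) + CK) * (q : ℝ) ^ (η / 4)) * 128 * Real.log q * 2 ^ (2 * r) := by
          gcongr
      _ = (3 * ((r : ℝ) ^ (2 * r) + CK) * 128 * 2 ^ (2 * r) * Real.log q) * (q : ℝ) ^ (η / 4) := by ring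
      _ ≤ (q : ℝ) ^ (η / 4) * (q : ℝ) ^ (η / 4) := by gcongr
      _ = (q : ℝ) ^ (η / 2) := by
          rw [← Real.rpow_add hq0]
          congr 1
          ring
      _ ≤ _ := h2
  · intro B
    have hco : Nat.Coprime 8 N := by
      have : Nat.Coprime (2 ^ 3) N := Nat.Coprime.pow_left 3 (Nat.coprime_two_left.mpr hodd)
      simpa using this
    exact mom_chi 8 N r B hco hodd hsq ψ hr1'
  · exact hX1
  · calc (X : ℝ) ^ 2 ≤ ((q : ℝ) ^ (1 / 2 + δ)) ^ 2 := pow_le_pow_left₀ (by positivity) hX2 2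
      _ = (q : ℝ) ^ (1 + 2 * δ) := by
          rw [← Real.rpow_natCast, ← Real.rpow_mul hq0.le]
          congr 1
          push_cast
          ring
      _ ≤ (q : ℝ) ^ (1 + 1 / (2 * (r : ℝ))) := by
          apply Real.rpow_le_rpow_of_exponent_le hq1
          have h5 : 2 * (1 / (4 * (r : ℝ))) = 1 / (2 * (r : ℝ)) := by field_simp; ring
          linarith
      _ = q * (q : ℝ) ^ (1 / (2 * (r : ℝ))) := by rw [Real.rpow_add hq0, Real.rpow_one]


end Pool.Agent.R852.BC
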