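import Pool.Agent.R852.BC.Loc
import Mathlib.NumberTheory.LegendreSymbol.JacobiSymbol

set_option autoImplicit false

/-! The real character modulo `8 N` of an integer which is not a square. -/

namespace Pool.Agent.R852.BC

open Finset Pool.Agent.H471R4.BW

/-- the complex character modulo `8` of an integer valued one -/
noncomputable def psi (θ : MulChar (ZMod 8) ℤ) : DirichletCharacter ℂ 8 :=
  θ.ringHomComp (Int.castRingHom ℂ)

lemma psi_apply (θ : MulChar (ZMod 8) ℤ) (x : ZMod 8) : psi θ x = ((θ x : ℤ) : ℂ) := rfl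

/-- the character `χ₄` modulo `8` -/
def chi4' : MulChar (ZMod 8) ℤ := ZMod.χ₈ * ZMod.χ₈'

lemma chi4'_nat (n : ℕ) (hn : Odd n) : chi4' (n : ZMod 8) = ZMod.χ₄ (n : ZMod 4) := by
  have h : ∀ a : ZMod 8, IsUnit a → chi4' a = ZMod.χ₄ (ZMod.castHom (by norm_num : 4 ∣ 8) (ZMod 4) a) := by
    intro a _
    unfold chi4'
    rw [MulChar.mul_apply]
    revert a
    decide
  have hu : IsUnit (n : ZMod 8) := by
    rw [ZMod.isUnit_iff_coprime]
    have : Nat.Coprime n (2 ^ 3) := Nat.Coprime.pow_right 3 (Nat.coprime_two_right.mpr hn)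
    simpa using this
  rw [h _ hu, map_natCast (ZMod.castHom (by norm_num : 4 ∣ 8) (ZMod 4))]

/-- reciprocity with the sign as a character -/
lemma recip (N l : ℕ) (hN : Odd N) (hl : Odd l) :
    jacobiSym (N : ℤ) l = (if N % 4 = 3 then ZMod.χ₄ (l : ZMod 4) else 1) * jacobiSym (l : ℤ) N := by
  rcases Nat.odd_mod_four_iff.mp (Nat.odd_iff.mp hN) with h | h
  · rw [if_neg (by omega), one_mul]
    exact jacobiSym.quadratic_reciprocity_one_mod_four h hl
  · rw [if_pos h]
    rcases Nat.odd_mod_four_iff.mp (Nat.odd_iff.mp hl) with h2 | h2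
    · rw [ZMod.χ₄_nat_one_mod_four h2, one_mul]
      exact jacobiSym.quadratic_reciprocity_one_mod_four' hN h2
    · rw [ZMod.χ₄_nat_three_mod_four h2, neg_one_mul]
      exact jacobiSym.quadratic_reciprocity_three_mod_four h h2

/-- For every nonzero integer `D` which is not a square there are an odd squarefree `N ∣ D` and a
character `θ` modulo `8` such that `θ(l) (l / N) = (D / l)` for the odd primes `l` which do not divide `D`,
and the character is not trivial. -/
theorem exists_char (D : ℤ) (hD0 : D ≠ 0) (hD : ¬ IsSquare D) :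
    ∃ (N : ℕ) (θ : MulChar (ZMod 8) ℤ), N ≠ 0 ∧ Odd N ∧ Squarefree N ∧ N ∣ D.natAbs ∧
      (N = 1 → θ ≠ 1) ∧
      ∀ l : ℕ, l.Prime → l ≠ 2 → ¬ (l : ℤ) ∣ D → (∃ t : ℤ, (l : ℤ) ∣ D - t ^ 2) →
        θ (l : ZMod 8) * jacobiSym (l : ℤ) N = 1 := by
  obtain ⟨s, f, hfs, hs⟩ := Nat.sq_mul_squarefree D.natAbs
  have hs0 : s ≠ 0 := by
    rintro rfl
    exact hD0 (Int.natAbs_eq_zero.mp (by rw [← hfs, mul_zero]))
  have hf0 : f ≠ 0 := by
    rintro rfl
    exact hD0 (Int.natAbs_eq_zero.mp (by rw [← hfs]; simp))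
  -- the odd part
  obtain ⟨e, N, he, hNodd, hsN⟩ : ∃ e N : ℕ, e ≤ 1 ∧ Odd N ∧ s = 2 ^ e * N := by
    rcases Nat.even_or_odd s with h | h
    · obtain ⟨k, hk⟩ := h.two_dvd
      refine ⟨1, k, le_rfl, ?_, by rw [pow_one, hk]⟩
      by_contra hcon
      rw [Nat.not_odd_iff_even] at hcon
      obtain ⟨j, hj⟩ := hcon.two_dvd
      have h4 : 2 * 2 ∣ s := ⟨j, by rw [hk, hj]; ring⟩
      have := hs 2 h4
      exact absurd (Nat.isUnit_iff.mp this) (by norm_num)
    · exact ⟨0, s, by norm_num, h, by rw [pow_zero, one_mul]⟩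
  have hN0 : N ≠ 0 := by
    rintro rfl
    exact hs0 (by rw [hsN, mul_zero])
  have hNs : N ∣ s := ⟨2 ^ e, by rw [hsN]; ring⟩
  have hNsq : Squarefree N := hs.squarefree_of_dvd hNs
  have hND : N ∣ D.natAbs := hNs.trans ⟨f ^ 2, by rw [← hfs]; ring⟩
  -- the sign
  obtain ⟨a, ha, hDa⟩ : ∃ a : ℕ, a ≤ 1 ∧ D = (-1) ^ a * ((f : ℤ) ^ 2 * (2 ^ e * N)) := by
    have h1 : ((D.natAbs : ℕ) : ℤ) = (f : ℤ) ^ 2 * (2 ^ e * N) := by
      rw [← hfs, hsN]; push_cast; ring
    rcases Int.natAbs_eq D with h | h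
    · exact ⟨0, by norm_num, by rw [← h1, pow_zero, one_mul]; exact h⟩
    · refine ⟨1, le_rfl, ?_⟩
      rw [← h1, pow_one, neg_one_mul]
      exact h
  set k : ℕ := if N % 4 = 3 then 1 else 0 with hk
  refine ⟨N, chi4' ^ (a + k) * ZMod.χ₈ ^ e, hN0, hNodd, hNsq, hND, ?_, ?_⟩
  · intro hN1 hθ
    have hk0 : k = 0 := by rw [hk, hN1]; norm_num
    rw [hk0, add_zero] at hθ
    have hval : ∀ x : ZMod 8, (chi4' ^ a * ZMod.χ₈ ^ e : MulChar (ZMod 8) ℤ) x = (1 : MulChar (ZMod 8) ℤ) x := by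
      intro x; rw [hθ]
    have h3 : (1 : MulChar (ZMod 8) ℤ) (3 : ZMod 8) = 1 := MulChar.one_apply (by decide)
    have h5 : (1 : MulChar (ZMod 8) ℤ) (5 : ZMod 8) = 1 := MulChar.one_apply (by decide)
    have v3 := hval 3
    have v5 := hval 5
    rw [h3] at v3
    rw [h5] at v5
    have c3 : chi4' (3 : ZMod 8) = -1 := by decide
    have c5 : chi4' (5 : ZMod 8) = 1 := by decide
    have d3 : ZMod.χ₈ (3 : ZMod 8) = -1 := by decide
    have d5 : ZMod.χ₈ (5 : ZMod 8) = -1 := by decide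
    have ha' : a = 0 ∨ a = 1 := by omega
    have he' : e = 0 ∨ e = 1 := by omega
    rcases ha' with ha0 | ha1 <;> rcases he' with he0 | he1
    · apply hD
      refine ⟨f, ?_⟩
      rw [hDa, ha0, he0, hN1]
      push_cast
      ring
    · rw [ha0, he1, pow_zero, one_mul, pow_one, d3] at v3
      norm_num at v3
    · rw [ha1, he0, pow_zero, mul_one, pow_one, c3] at v3
      norm_num at v3
    · rw [ha1, he1, pow_one, pow_one, MulChar.mul_apply, c5, d5] at v5
      norm_num at v5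
  · intro l hl hl2 hlD ⟨t, ht⟩
    haveI : Fact l.Prime := ⟨hl⟩
    have hlodd : Odd l := hl.odd_of_ne_two hl2
    have hu : IsUnit (l : ZMod 8) := by
      rw [ZMod.isUnit_iff_coprime]
      have : Nat.Coprime l (2 ^ 3) := Nat.Coprime.pow_right 3 (Nat.coprime_two_right.mpr hlodd)
      simpa using this
    have hlf : ¬ (l : ℤ) ∣ (f : ℤ) := by
      intro h
      apply hlD
      rw [hDa]
      exact Dvd.dvd.mul_left (Dvd.dvd.mul_right (Dvd.dvd.pow h (by norm_num)) _) _
    have hlt : ¬ (l : ℤ) ∣ t := by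
      intro h
      apply hlD
      have h2 : (l : ℤ) ∣ t ^ 2 := Dvd.dvd.pow h (by norm_num)
      have h3 := dvd_add ht h2
      rwa [sub_add_cancel] at h3
    have gcd1 : ∀ z : ℤ, ¬ (l : ℤ) ∣ z → z.gcd l = 1 := by
      intro z hz
      have h1 : IsCoprime (l : ℤ) z :=
        (Prime.coprime_iff_not_dvd (Nat.prime_iff_prime_int.mp hl)).mpr hz
      rw [← Int.isCoprime_iff_gcd_eq_one]
      exact h1.symm
    have e1 : jacobiSym D l = 1 := by
      have h1 : jacobiSym D l = jacobiSym (t ^ 2) l := by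
        apply jacobiSym.mod_left'
        exact ((Int.modEq_iff_dvd).mpr ht : t ^ 2 ≡ D [ZMOD (l : ℤ)]).symm
      rw [h1]
      exact jacobiSym.sq_one' (gcd1 t hlt)
    have e2 : jacobiSym D l = ZMod.χ₄ (l : ZMod 4) ^ a * (ZMod.χ₈ (l : ZMod 8) ^ e *
        jacobiSym (N : ℤ) l) := by
      rw [hDa, jacobiSym.mul_left, jacobiSym.mul_left, jacobiSym.mul_left, jacobiSym.pow_left (-1),
        jacobiSym.at_neg_one hlodd, jacobiSym.sq_one' (gcd1 f hlf), jacobiSym.pow_left 2,
        jacobiSym.at_two hlodd, one_mul]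
    have e3 := recip N l hNodd hlodd
    have e4 : (chi4' ^ (a + k) * ZMod.χ₈ ^ e : MulChar (ZMod 8) ℤ) (l : ZMod 8) =
        ZMod.χ₄ (l : ZMod 4) ^ (a + k) * ZMod.χ₈ (l : ZMod 8) ^ e := by
      rw [MulChar.mul_apply]
      have p1 : ∀ (χ : MulChar (ZMod 8) ℤ) (n : ℕ), (χ ^ n) (l : ZMod 8) = χ (l : ZMod 8) ^ n := by
        intro χ n
        induction n with
        | zero => rw [pow_zero, pow_zero, MulChar.one_apply hu]
        | succ n ih => rw [pow_succ, pow_succ, MulChar.mul_apply, ih]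
      rw [p1, p1, chi4'_nat l hlodd]
    rw [e4]
    rw [e1, e3] at e2
    have e5 : ZMod.χ₄ (l : ZMod 4) ^ k = if N % 4 = 3 then ZMod.χ₄ (l : ZMod 4) else 1 := by
      rw [hk]
      split_ifs <;> simp
    rw [pow_add, e5]
    linarith

/-- the character is not principal -/
theorem chi_ne_one (N : ℕ) [NeZero N] (hodd : Odd N) (hsq : Squarefree N)
    (θ : MulChar (ZMod 8) ℤ) (hθ : N = 1 → θ ≠ 1) : chi 8 N (psi θ) ≠ 1 := by
  intro h
  have hval : ∀ m : ℕ, psi θ (m : ZMod 8) * jchar N (m : ZMod N) = 1 ∨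
      psi θ (m : ZMod 8) * jchar N (m : ZMod N) = 0 := by
    intro m
    rw [← chi_nat 8 N (psi θ) m, h]
    by_cases hu : IsUnit ((m : ℕ) : ZMod (8 * N))
    · left; exact MulChar.one_apply hu
    · right; exact MulChar.map_nonunit _ hu
  by_cases hN1 : N = 1
  · subst hN1
    apply hθ rfl
    apply MulChar.ext'
    intro x
    by_cases hu : IsUnit x
    · rw [MulChar.one_apply hu]
      have h1 := hval x.val
      rw [ZMod.natCast_zmod_val, psi_apply, jchar_apply, jacobiSym.one_right, Int.cast_one,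
        mul_one] at h1
      have h2 : IsUnit (θ x) := hu.map θ
      rcases h1 with h1 | h1
      · exact_mod_cast h1
      · have h3 : θ x = 0 := by exact_mod_cast h1
        rw [h3] at h2
        exact absurd h2 (by decide)
    · rw [MulChar.map_nonunit _ hu, MulChar.map_nonunit _ hu]
  · set p := N.minFac with hp
    have hpp : p.Prime := Nat.minFac_prime hN1
    haveI : Fact p.Prime := ⟨hpp⟩
    obtain ⟨m, hm⟩ := Nat.minFac_dvd N
    rw [← hp] at hm
    have hm0 : m ≠ 0 := by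
      rintro rfl
      rw [mul_zero] at hm
      exact NeZero.ne N hm
    have hodd' : Odd (p * m) := hm ▸ hodd
    have hpo : Odd p := (Nat.odd_mul.mp hodd').1
    have hsq' : Squarefree (p * m) := hm ▸ hsq
    have hco : Nat.Coprime p m := Nat.coprime_of_squarefree_mul hsq'
    have hp2 : p ≠ 2 := by
      rintro h2
      rw [h2] at hpo
      exact absurd hpo (by decide)
    obtain ⟨a, ha⟩ := FiniteField.exists_nonsquare (F := ZMod p) (by rwa [ZMod.ringChar_zmod_n])
    have ha' : jacobiSym (a.val : ℤ) p = -1 := by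
      rw [ZMod.nonsquare_iff_jacobiSym_eq_neg_one]
      push_cast
      rwa [ZMod.natCast_zmod_val]
    have hco8 : Nat.Coprime p (8 * m) := by
      apply Nat.Coprime.mul_right _ hco
      have : Nat.Coprime p (2 ^ 3) := Nat.Coprime.pow_right 3 (Nat.coprime_two_right.mpr hpo)
      simpa using this
    obtain ⟨u, hu1, hu2⟩ := Nat.chineseRemainder hco8 a.val 1
    have j1 : jacobiSym (u : ℤ) p = -1 := by
      rw [← ha']
      apply jacobiSym.mod_left'
      exact_mod_cast hu1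
    have j2 : jacobiSym (u : ℤ) m = 1 := by
      rw [← jacobiSym.one_left m]
      apply jacobiSym.mod_left'
      have : u ≡ 1 [MOD m] := Nat.ModEq.of_mul_left 8 hu2
      exact_mod_cast this
    have j3 : ((u : ℕ) : ZMod 8) = 1 := by
      have : u ≡ 1 [MOD 8] := Nat.ModEq.of_mul_right m hu2
      have := (ZMod.natCast_eq_natCast_iff u 1 8).mpr this
      simpa using this
    have h1 := hval u
    rw [j3, jchar_apply, map_one, one_mul] at h1
    have j4 : jacobiSym (u : ℤ) N = -1 := by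
      rw [hm, jacobiSym.mul_right' _ hpp.ne_zero hm0, j1, j2]
      norm_num
    rw [j4] at h1
    norm_num at h1

end Pool.Agent.R852.BC
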