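import Pool.Agent.R852.BC.Fin
import Mathlib.RingTheory.Polynomial.Resultant.Basic

set_option autoImplicit false

/-! The discriminant of an integral polynomial which splits modulo `p` is a square modulo `p`. -/

namespace Pool.Agent.R852.BC

open Polynomial Finset

lemma eval_deriv_prod {K : Type*} [Field K] {d : ℕ} (x : Fin d → K) (i : Fin d) :
    (derivative (∏ j, (X - C (x j)))).eval (x i) = ∏ j ∈ {i}ᶜ, (x i - x j) := by
  classical
  rw [derivative_prod_finset, eval_finsetSum, Finset.sum_eq_single i]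
  · rw [derivative_X_sub_C, mul_one, eval_prod, Finset.compl_singleton]
    exact Finset.prod_congr rfl fun j _ => by simp
  · intro j _ hj
    rw [eval_mul, eval_prod, Finset.prod_eq_zero (i := i), zero_mul]
    · exact Finset.mem_erase.mpr ⟨hj.symm, Finset.mem_univ _⟩
    · simp
  · intro h
    exact absurd (Finset.mem_univ _) h

lemma sum_card_Ioi (d : ℕ) : ∑ i : Fin d, (Finset.Ioi i).card = d * (d - 1) / 2 := by
  simp only [Fin.card_Ioi]
  rw [← Finset.sum_range_id, Fin.sum_univ_eq_sum_range (fun i => d - 1 - i) d]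
  exact Finset.sum_range_reflect (fun i => i) d

lemma prod_pairs {K : Type*} [Field K] {d : ℕ} (x : Fin d → K) :
    ∏ i, ∏ j ∈ {i}ᶜ, (x i - x j) =
      (-1) ^ (d * (d - 1) / 2) * (∏ i, ∏ j ∈ Finset.Ioi i, (x i - x j)) ^ 2 := by
  classical
  rw [← Finset.prod_prod_Ioi_mul_eq_prod_prod_off_diag (fun j i => x i - x j), ← sum_card_Ioi,
    ← Finset.prod_pow_eq_pow_sum, ← Finset.prod_pow, ← Finset.prod_mul_distrib]
  refine Finset.prod_congr rfl fun i _ => ?_
  rw [← Finset.prod_const, ← Finset.prod_pow, ← Finset.prod_mul_distrib]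
  refine Finset.prod_congr rfl fun j _ => ?_
  ring

/-- The discriminant modulo a prime. -/
theorem discr_map {K : Type*} [Field K] (Q : ℤ[X]) (hQ : Q.Monic) {d : ℕ} (hd : Q.natDegree = d)
    (φ : ℤ →+* K) (x : Fin d → K) (hx : Q.map φ = ∏ i, (X - C (x i))) :
    φ Q.discr = (∏ i, ∏ j ∈ Finset.Ioi i, (x i - x j)) ^ 2 := by
  rcases Nat.eq_zero_or_pos d with h0 | h0
  · subst h0
    have : Q = C 1 := by
      rw [hQ.natDegree_eq_zero.mp hd, C_1]
    rw [this, discr_C]
    simp
  · have hdeg : 0 < Q.degree := natDegree_pos_iff_degree_pos.mp (by omega)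
    have h1 := congrArg φ (resultant_deriv hdeg)
    rw [← resultant_map_map, ← derivative_map, hx, hQ.leadingCoeff, hd] at h1
    have hnat : (∏ i, (X - C (x i))).natDegree = d := by
      rw [← hx, hQ.natDegree_map, hd]
    have h2 : (∏ i, (X - C (x i))).resultant (derivative (∏ i, (X - C (x i)))) d (d - 1) =
        ∏ i, (X - C (x i)).resultant (derivative (∏ i, (X - C (x i)))) (X - C (x i)).natDegree
          (d - 1) := by
      have := resultant_prod_left (Finset.univ) (fun i => X - C (x i))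
        (derivative (∏ i, (X - C (x i)))) (d - 1) (by simp) (by
          refine (natDegree_derivative_le _).trans ?_
          rw [hnat])
      rw [hnat] at this
      exact this
    rw [h2] at h1
    have h3 : ∀ i, (X - C (x i)).resultant (derivative (∏ i, (X - C (x i))))
        (X - C (x i)).natDegree (d - 1) = ∏ j ∈ {i}ᶜ, (x i - x j) := by
      intro i
      rw [natDegree_X_sub_C, resultant_X_sub_C_left, eval_deriv_prod]
      refine (natDegree_derivative_le _).trans ?_
      rw [hnat]
    simp only [h3] at h1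
    rw [prod_pairs, map_mul, map_mul, map_one, mul_one, map_pow, map_neg, map_one] at h1
    have h4 : ((-1 : K) ^ (d * (d - 1) / 2)) ≠ 0 := by simp
    exact (mul_left_cancel₀ h4 h1).symm

lemma discr_sq_mod (Q : ℤ[X]) (hQ : Q.Monic) {d : ℕ} (hd : Q.natDegree = d)
    (p : ℕ) [Fact p.Prime] (x : Fin d → ZMod p)
    (hx : Q.map (Int.castRingHom (ZMod p)) = ∏ i, (X - C (x i))) :
    ∃ t : ℤ, (p : ℤ) ∣ Q.discr - t ^ 2 := by
  have h1 := discr_map Q hQ hd (Int.castRingHom (ZMod p)) x hx
  refine ⟨((∏ i, ∏ j ∈ Finset.Ioi i, (x i - x j)).val : ℤ), ?_⟩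
  rw [← ZMod.intCast_zmod_eq_zero_iff_dvd]
  push_cast
  rw [ZMod.natCast_zmod_val]
  rw [eq_intCast] at h1
  rw [h1, sub_self]

/-- a factor of a polynomial which splits modulo `p` splits modulo `p` -/
lemma factor_splits {r : ℕ} (P Q : ℤ[X]) (hP : P.Monic) (hQ : Q.Monic) (hQP : Q ∣ P) (p : ℕ)
    [Fact p.Prime] (x : Fin r → ZMod p)
    (hx : P.map (Int.castRingHom (ZMod p)) = ∏ i, (X - C (x i))) :
    ∃ y : Fin Q.natDegree → ZMod p,
      Q.map (Int.castRingHom (ZMod p)) = ∏ i, (X - C (y i)) := by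
  have h1 : (P.map (Int.castRingHom (ZMod p))).Splits := by
    rw [hx]
    exact Splits.prod fun i _ => Splits.X_sub_C _
  have h2 : (Q.map (Int.castRingHom (ZMod p))).Splits :=
    h1.of_dvd (hP.map _).ne_zero (Polynomial.map_dvd _ hQP)
  have hcard : Multiset.card (Q.map (Int.castRingHom (ZMod p))).roots = Q.natDegree := by
    rw [splits_iff_card_roots.1 h2, hQ.natDegree_map]
  obtain ⟨y, hy⟩ := Pool.Agent.R920.CH.exists_fun _ hcard
  refine ⟨y, ?_⟩
  have h3 := h2.eq_prod_roots_of_monic (hQ.map _)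
  rw [← hy, Multiset.map_map] at h3
  exact h3

end Pool.Agent.R852.BC
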