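import Pool.Agent.R852.BC.Main
import Pool.Agent.R920.CH.TwoC
import Pool.Agent.R920.CH.Mod

set_option autoImplicit false

/-! Discriminants of Chern polynomials of rank two. -/

namespace Pool.Agent.R852.BC

open Filter Pool.Agent.R920.CH

/-- comparison of powers of `n` and `n - k` -/
lemma pow_transfer (k : ℕ) (E ε : ℝ) (hE : 0 ≤ E) (hε : 0 < ε) : ∀ᶠ n : ℕ in atTop,
    (n : ℝ) ^ (E - ε) ≤ ((n - k : ℕ) : ℝ) ^ (E - ε / 2) := by
  have tk : Tendsto (fun n : ℕ => ((n - k : ℕ) : ℝ)) atTop atTop :=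
    tendsto_natCast_atTop_atTop.comp (tendsto_sub_atTop_nat k)
  have f : ∀ᶠ n : ℕ in atTop, (2 : ℝ) ^ E ≤ ((n - k : ℕ) : ℝ) ^ (ε / 2) :=
    tk.eventually ((tendsto_rpow_atTop (by positivity : (0 : ℝ) < ε / 2)).eventually_ge_atTop _)
  filter_upwards [f, eventually_ge_atTop (2 * k + 1)] with n hn hk
  set m : ℕ := n - k with hm
  have hm1 : 1 ≤ m := by omega
  have hm0 : (0 : ℝ) < m := by exact_mod_cast hm1
  have hm1' : (1 : ℝ) ≤ m := by exact_mod_cast hm1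
  have hnm : (n : ℝ) ≤ 2 * m := by exact_mod_cast (by omega : n ≤ 2 * m)
  have hmn : (m : ℝ) ≤ n := by exact_mod_cast (by omega : m ≤ n)
  have h2E : (1 : ℝ) ≤ 2 ^ E := Real.one_le_rpow (by norm_num) hE
  have key : (n : ℝ) ^ (E - ε) ≤ 2 ^ E * (m : ℝ) ^ (E - ε) := by
    rcases le_or_gt 0 (E - ε) with h | h
    · calc (n : ℝ) ^ (E - ε) ≤ (2 * m) ^ (E - ε) :=
            Real.rpow_le_rpow (Nat.cast_nonneg _) hnm h
        _ = 2 ^ (E - ε) * (m : ℝ) ^ (E - ε) := Real.mul_rpow (by norm_num) hm0.le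
        _ ≤ 2 ^ E * (m : ℝ) ^ (E - ε) := by
            apply mul_le_mul_of_nonneg_right _ (by positivity)
            apply Real.rpow_le_rpow_of_exponent_le (by norm_num)
            linarith
    · calc (n : ℝ) ^ (E - ε) ≤ (m : ℝ) ^ (E - ε) :=
            Real.rpow_le_rpow_of_nonpos hm0 hmn h.le
        _ ≤ 2 ^ E * (m : ℝ) ^ (E - ε) := le_mul_of_one_le_left (by positivity) h2E
  calc (n : ℝ) ^ (E - ε) ≤ 2 ^ E * (m : ℝ) ^ (E - ε) := key
    _ ≤ (m : ℝ) ^ (ε / 2) * (m : ℝ) ^ (E - ε) := mul_le_mul_of_nonneg_right hn (by positivity)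
    _ = (m : ℝ) ^ (E - ε / 2) := by
        rw [← Real.rpow_add hm0]
        congr 1
        ring

/-- the same in the form used below -/
lemma main_sub (k l : ℕ) (A ε : ℝ) (hA : 0 ≤ A) (hε : 0 < ε) : ∀ᶠ n : ℕ in atTop, ∀ D B : ℤ,
    B ≠ 0 → (|B| : ℝ) ≤ (n : ℝ) ^ A → (|D| : ℝ) ≤ (n : ℝ) ^ (4 * Real.exp (1 / 2) - ε) →
    (∀ p : ℕ, p.Prime → k < p → p + l ≤ n → ¬ (p : ℤ) ∣ B → ∃ t : ℤ, (p : ℤ) ∣ D - t ^ 2) →
      IsSquare D := by
  have h1 := (tendsto_sub_atTop_nat l).eventually (main2 k (A + 1) (ε / 2) (by positivity))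
  have h2 := pow_transfer l (4 * Real.exp (1 / 2)) ε (by positivity) hε
  have h3 := pow_transfer l (A + 2) 2 (by positivity) (by norm_num)
  filter_upwards [h1, h2, h3, eventually_ge_atTop l] with n g1 g2 g3 hnl D B hB0 hB hD hp
  refine g1 D B hB0 (hB.trans ?_) (hD.trans g2) ?_
  · have e1 : A + 2 - 2 = A := by ring
    have e2 : A + 2 - 2 / 2 = A + 1 := by ring
    rwa [e1, e2] at g3
  · intro p hp1 hkp hpn hpB
    exact hp p hp1 hkp (by omega) hpB

/-- **Rank two**: the squarefree part of a discriminant of polynomial size which is not a square is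
large. -/
theorem rank_two (A ε : ℝ) (hε : 0 < ε) : ∀ᶠ n : ℕ in atTop, ∀ c₁ c₂ f s : ℤ,
    RiemannRoch n (poly2 c₁ c₂) → c₁ ^ 2 - 4 * c₂ = f * s ^ 2 →
    (|c₁ ^ 2 - 4 * c₂| : ℤ) ≤ (n : ℝ) ^ A →
    (|f| : ℤ) ≤ (n : ℝ) ^ (4 * Real.exp (1 / 2) - ε) →
    ∃ a b : ℤ, c₁ = a + b ∧ c₂ = a * b := by
  filter_upwards [main_sub 2 1 (max A 0) ε (le_max_right _ _) hε, eventually_ge_atTop 1]
    with n hn hn1 c₁ c₂ f s hRR hfs hA hf
  have hsq : IsSquare (c₁ ^ 2 - 4 * c₂) := by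
    by_cases hD0 : c₁ ^ 2 - 4 * c₂ = 0
    · rw [hD0]
      exact ⟨0, by norm_num⟩
    · have hs0 : s ≠ 0 := by
        rintro rfl
        exact hD0 (by rw [hfs]; ring)
      have h1 : IsSquare f := by
        refine hn f s hs0 ?_ (by push_cast at hf; exact hf) ?_
        · have h2 : (|s| : ℤ) ≤ |c₁ ^ 2 - 4 * c₂| := by
            have h3 : (1 : ℤ) ≤ |f| := by
              apply Int.one_le_abs
              rintro rfl
              exact hD0 (by rw [hfs]; ring)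
            have h4 : (1 : ℤ) ≤ |s| := Int.one_le_abs hs0
            rw [hfs, abs_mul, abs_pow]
            nlinarith
          have h3 : ((|s| : ℤ) : ℝ) ≤ ((|c₁ ^ 2 - 4 * c₂| : ℤ) : ℝ) := by exact_mod_cast h2
          have h4 : (n : ℝ) ^ A ≤ (n : ℝ) ^ (max A 0) :=
            Real.rpow_le_rpow_of_exponent_le (by exact_mod_cast hn1) (le_max_left _ _)
          push_cast at h3 hA
          linarith
        · intro p hp h2 hpn hps
          obtain ⟨t, ht⟩ := square_mod hRR p hp (by omega) (by omega)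
          rw [hfs] at ht
          have hpi := Nat.prime_iff_prime_int.1 hp
          obtain ⟨u, v, huv⟩ := (Irreducible.coprime_iff_not_dvd hpi.irreducible).mpr hps
          -- `v s = 1 - u p`
          refine ⟨v * t, ?_⟩
          have e : f - (v * t) ^ 2 = v ^ 2 * (f * s ^ 2 - t ^ 2) + (p : ℤ) * (f * u * (2 - u * p)) := by
            have e1 : v * s = 1 - u * p := by linarith
            have e2 : (v * s) ^ 2 = (1 - u * p) ^ 2 := by rw [e1]
            linear_combination (-f) * e2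
          rw [e]
          exact dvd_add (Dvd.dvd.mul_left ht _) (dvd_mul_right _ _)
      obtain ⟨g, hg⟩ := h1
      exact ⟨g * s, by rw [hfs, hg]; ring⟩
  obtain ⟨s, hs⟩ := hsq
  have h1 : Even (c₁ ^ 2 - s * s) := ⟨2 * c₂, by linarith⟩
  have h2 : Even (c₁ - s) := by
    rw [Int.even_sub] at h1 ⊢
    rw [Int.even_pow' two_ne_zero, Int.even_mul] at h1
    tauto
  obtain ⟨m, hm⟩ := h2
  refine ⟨c₁ - m, m, by ring, ?_⟩
  have h3 : s = c₁ - 2 * m := by linarith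
  rw [h3] at hs
  have h4 : 4 * c₂ = 4 * ((c₁ - m) * m) := by linear_combination -hs
  linarith

/-- **Codimension two**: small degree. -/
theorem codim_two (ε : ℝ) (hε : 0 < ε) : ∀ᶠ N : ℕ in atTop, ∀ k d : ℤ, 0 < d →
    0 < k + N + 1 → k + N ≤ d → RiemannRoch N (poly2 (k + N + 1) d) →
    (d : ℝ) ≤ (N : ℝ) ^ (2 * Real.exp (1 / 2) - ε) →
    ∃ a b : ℤ, 0 < a ∧ 0 < b ∧ d = a * b ∧ k = a + b - N - 1 := by
  have h4 : ∀ᶠ N : ℕ in atTop, (4 : ℝ) ≤ (N : ℝ) ^ ε :=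
    tendsto_natCast_atTop_atTop.eventually
      ((tendsto_rpow_atTop hε).eventually_ge_atTop (4 : ℝ))
  filter_upwards [rank_two 7 ε hε, h4, eventually_ge_atTop 1] with N hN h4 hN1 k d hd hk hkd hRR hdN
  have hN0 : (0 : ℝ) < N := by exact_mod_cast hN1
  have hN1' : (1 : ℝ) ≤ N := by exact_mod_cast hN1
  have hdr : (1 : ℝ) ≤ d := by exact_mod_cast hd
  have hDabs : |(k + N + 1) ^ 2 - 4 * d| ≤ 4 * d ^ 2 := by
    rw [abs_le]
    constructor
    · nlinarith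
    · nlinarith
  have hDr : ((|(k + N + 1) ^ 2 - 4 * d| : ℤ) : ℝ) ≤ (N : ℝ) ^ (4 * Real.exp (1 / 2) - ε) := by
    calc ((|(k + N + 1) ^ 2 - 4 * d| : ℤ) : ℝ) ≤ ((4 * d ^ 2 : ℤ) : ℝ) := by exact_mod_cast hDabs
      _ = 4 * (d : ℝ) ^ 2 := by push_cast; ring
      _ ≤ 4 * ((N : ℝ) ^ (2 * Real.exp (1 / 2) - ε)) ^ 2 := by gcongr
      _ = 4 * (N : ℝ) ^ ((2 * Real.exp (1 / 2) - ε) * 2) := by
          rw [← Real.rpow_natCast ((N : ℝ) ^ _), ← Real.rpow_mul hN0.le, Nat.cast_ofNat]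
      _ ≤ (N : ℝ) ^ ε * (N : ℝ) ^ ((2 * Real.exp (1 / 2) - ε) * 2) := by gcongr
      _ = (N : ℝ) ^ (4 * Real.exp (1 / 2) - ε) := by
          rw [← Real.rpow_add hN0]
          congr 1
          ring
  obtain ⟨a, b, hab, hab2⟩ := hN (k + N + 1) d ((k + N + 1) ^ 2 - 4 * d) 1 hRR (by ring)
    (hDr.trans (Real.rpow_le_rpow_of_exponent_le hN1' (by
      have := exp_half_bounds.2
      linarith))) hDr
  have hpos : 0 < a ∧ 0 < b := by
    rcases lt_trichotomy a 0 with h | h | h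
    · have : b < 0 := by
        by_contra hb
        push Not at hb
        nlinarith
      omega
    · rw [h, zero_mul] at hab2
      omega
    · refine ⟨h, ?_⟩
      by_contra hb
      push Not at hb
      nlinarith
  exact ⟨a, b, hpos.1, hpos.2, hab2, by linarith⟩

end Pool.Agent.R852.BC
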