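import Pool.Agent.R852.BC.Disc
import Mathlib.RingTheory.Frobenius
import Mathlib.FieldTheory.Galois.IsGaloisGroup
import Mathlib.NumberTheory.NumberField.Basic
import Mathlib.NumberTheory.NumberField.Ideal.Basic
import Mathlib.Analysis.Polynomial.CauchyBound
import Mathlib.NumberTheory.LegendreSymbol.Basic

set_option autoImplicit false

/-! The integers which become squares in the splitting field of an integral polynomial. -/

namespace Pool.Agent.R852.BC

open Polynomial NumberField

section local_part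

variable {L : Type*} [Field L] [NumberField L] [IsGalois ℚ L]

/-- the roots in the ring of integers -/
noncomputable def rts (L : Type*) [Field L] [NumberField L] (P : ℤ[X]) : Multiset (𝓞 L) :=
  (P.map (Int.castRingHom (𝓞 L))).roots

open Classical in
/-- the product of the differences of distinct roots -/
noncomputable def dprod (L : Type*) [Field L] [NumberField L] (P : ℤ[X]) : 𝓞 L :=
  ∏ u ∈ (rts L P).toFinset, ∏ v ∈ (rts L P).toFinset.erase u, (u - v)

lemma mem_rts {P : ℤ[X]} (hP : P.Monic) (u : 𝓞 L) : u ∈ rts L P ↔ aeval u P = 0 := by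
  unfold rts
  rw [mem_roots (hP.map _).ne_zero, IsRoot.def, eval_map, aeval_def]
  rfl

lemma smul_mem_rts {P : ℤ[X]} (hP : P.Monic) (σ : Gal(L/ℚ)) {u : 𝓞 L} (hu : u ∈ rts L P) :
    σ • u ∈ rts L P := by
  rw [mem_rts hP] at hu ⊢
  have h1 : aeval ((MulSemiringAction.toAlgHom ℤ (𝓞 L) σ) u) P =
      (MulSemiringAction.toAlgHom ℤ (𝓞 L) σ) (aeval u P) := Polynomial.aeval_algHom_apply _ _ _
  rw [hu, map_zero] at h1
  exact h1

lemma dprod_smul {P : ℤ[X]} (hP : P.Monic) (σ : Gal(L/ℚ)) : σ • dprod L P = dprod L P := by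
  classical
  unfold dprod
  have hinj : Function.Injective fun u : 𝓞 L => σ • u := MulAction.injective σ
  have himg : (rts L P).toFinset.image (fun u => σ • u) = (rts L P).toFinset := by
    apply Finset.eq_of_subset_of_card_le
    · intro v hv
      rw [Finset.mem_image] at hv
      obtain ⟨u, hu, rfl⟩ := hv
      rw [Multiset.mem_toFinset] at hu ⊢
      exact smul_mem_rts hP σ hu
    · rw [Finset.card_image_of_injective _ hinj]
  rw [Finset.smul_prod']
  nth_rewrite 3 [← himg]
  rw [Finset.prod_image (fun a _ b _ h => hinj h)]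
  refine Finset.prod_congr rfl fun u _ => ?_
  rw [Finset.smul_prod']
  nth_rewrite 2 [← himg]
  rw [← Finset.image_erase hinj, Finset.prod_image (fun a _ b _ h => hinj h)]
  refine Finset.prod_congr rfl fun v _ => ?_
  rw [smul_sub]

lemma dprod_ne_zero (P : ℤ[X]) : dprod L P ≠ 0 := by
  classical
  unfold dprod
  rw [Finset.prod_ne_zero_iff]
  intro u _
  rw [Finset.prod_ne_zero_iff]
  intro v hv
  rw [Finset.mem_erase] at hv
  exact sub_ne_zero.mpr hv.1.symm

lemma exists_b {P : ℤ[X]} (hP : P.Monic) : ∃ b : ℤ, b ≠ 0 ∧ (b : 𝓞 L) = dprod L P := by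
  haveI : IsGaloisGroup Gal(L/ℚ) ℤ (𝓞 L) := inferInstance
  obtain ⟨b, hb⟩ := Algebra.IsInvariant.isInvariant (A := ℤ) (G := Gal(L/ℚ)) (dprod L P)
    (fun σ => dprod_smul hP σ)
  refine ⟨b, ?_, by rw [← hb]; rfl⟩
  rintro rfl
  apply dprod_ne_zero (L := L) P
  rw [← hb, map_zero]

/-- the product of the differences is not too large -/
lemma b_bound {P : ℤ[X]} (hP : P.Monic) (b : ℤ) (hb : (b : 𝓞 L) = dprod L P) (T : ℝ) (hT : 1 ≤ T)
    (hc : ∀ i, ((|P.coeff i| : ℤ) : ℝ) ≤ T) :
    ((|b| : ℤ) : ℝ) ≤ (4 * T) ^ (P.natDegree ^ 2) := by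
  classical
  obtain ⟨ι⟩ : Nonempty (L →+* ℂ) := inferInstance
  let j : 𝓞 L →+* ℂ := ι.comp (algebraMap (𝓞 L) L)
  have hroot : ∀ u ∈ rts L P, ‖j u‖ ≤ 2 * T := by
    intro u hu
    rw [mem_rts hP] at hu
    have h1 : (P.map (Int.castRingHom ℂ)).IsRoot (j u) := by
      rw [IsRoot.def, eval_map]
      have h2 := congrArg j hu
      rw [map_zero, aeval_def, hom_eval₂] at h2
      have e : Int.castRingHom ℂ = j.comp (algebraMap ℤ (𝓞 L)) := RingHom.ext_int _ _
      rw [e]
      exact h2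
    have h2 := h1.norm_lt_cauchyBound (hP.map _).ne_zero
    have h3 : cauchyBound (P.map (Int.castRingHom ℂ)) ≤ T.toNNReal + 1 := by
      unfold cauchyBound
      rw [(hP.map _).leadingCoeff, nnnorm_one, div_one]
      refine add_le_add ?_ le_rfl
      rw [Finset.sup_le_iff]
      intro i _
      rw [← NNReal.coe_le_coe, coe_nnnorm, coeff_map, eq_intCast, Complex.norm_intCast,
        Real.coe_toNNReal T (by linarith)]
      have := hc i
      push_cast at this
      exact this
    have h4 : ((‖j u‖₊ : NNReal) : ℝ) < ((T.toNNReal + 1 : NNReal) : ℝ) :=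
      NNReal.coe_lt_coe.mpr (lt_of_lt_of_le h2 h3)
    rw [coe_nnnorm, NNReal.coe_add, NNReal.coe_one, Real.coe_toNNReal T (by linarith)] at h4
    linarith
  have h1 : ((|b| : ℤ) : ℝ) = ‖j (dprod L P)‖ := by
    rw [← hb, map_intCast, Complex.norm_intCast]
    push_cast
    rfl
  rw [h1]
  unfold dprod
  rw [map_prod, norm_prod]
  have hcard : (rts L P).toFinset.card ≤ P.natDegree := by
    refine (Multiset.toFinset_card_le _).trans ?_
    unfold rts
    refine (card_roots' _).trans ?_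
    exact natDegree_map_le
  have h4T : (1 : ℝ) ≤ 4 * T := by linarith
  calc ∏ u ∈ (rts L P).toFinset, ‖j (∏ v ∈ (rts L P).toFinset.erase u, (u - v))‖
      ≤ ∏ _u ∈ (rts L P).toFinset, (4 * T) ^ P.natDegree := by
        refine Finset.prod_le_prod (fun _ _ => norm_nonneg _) fun u hu => ?_
        rw [map_prod, norm_prod]
        calc ∏ v ∈ (rts L P).toFinset.erase u, ‖j (u - v)‖
            ≤ ∏ _v ∈ (rts L P).toFinset.erase u, (4 * T) := by
              refine Finset.prod_le_prod (fun _ _ => norm_nonneg _) fun v hv => ?_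
              rw [map_sub]
              refine (norm_sub_le _ _).trans ?_
              have e1 := hroot u (Multiset.mem_toFinset.mp hu)
              have e2 := hroot v (Multiset.mem_toFinset.mp (Finset.mem_of_mem_erase hv))
              linarith
          _ = (4 * T) ^ ((rts L P).toFinset.erase u).card := by rw [Finset.prod_const]
          _ ≤ (4 * T) ^ P.natDegree :=
              pow_le_pow_right₀ h4T ((Finset.card_erase_le).trans hcard)
    _ = ((4 * T) ^ P.natDegree) ^ (rts L P).toFinset.card := by rw [Finset.prod_const]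
    _ ≤ ((4 * T) ^ P.natDegree) ^ P.natDegree :=
        pow_le_pow_right₀ (one_le_pow₀ h4T) hcard
    _ = (4 * T) ^ (P.natDegree ^ 2) := by rw [← pow_mul, pow_two]

/-- **Squares in the splitting field** are squares modulo the primes which split. -/
theorem sq_mod_of_split {P : ℤ[X]} (hP : P.Monic)
    (hgen : Algebra.adjoin ℚ {u : L | aeval u P = 0} = ⊤)
    (b : ℤ) (hb : (b : 𝓞 L) = dprod L P) (p : ℕ) [hp : Fact p.Prime] (hp2 : p ≠ 2)
    (hpb : ¬ (p : ℤ) ∣ b) {r : ℕ} (x : Fin r → ZMod p)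
    (hx : P.map (Int.castRingHom (ZMod p)) = ∏ i, (X - C (x i)))
    (f : ℤ) (α : L) (hα : α * α = f) : ∃ t : ℤ, (p : ℤ) ∣ f - t ^ 2 := by
  classical
  haveI : IsGaloisGroup Gal(L/ℚ) ℤ (𝓞 L) := inferInstance
  have hpZ : Prime (p : ℤ) := Nat.prime_iff_prime_int.mp hp.out
  have hp0 : (p : ℤ) ≠ 0 := hpZ.ne_zero
  haveI hmax : (Ideal.span {(p : ℤ)}).IsMaximal :=
    PrincipalIdealRing.isMaximal_of_irreducible hpZ.irreducible
  obtain ⟨Q, hQm, hQo⟩ := Ideal.exists_maximal_ideal_liesOver_of_isIntegral (S := 𝓞 L)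
    (Ideal.span {(p : ℤ)})
  have hunder : Q.under ℤ = Ideal.span {(p : ℤ)} := hQo.over.symm
  have hQ0 : Q ≠ ⊥ := by
    rintro rfl
    have h1 : (p : ℤ) ∈ (⊥ : Ideal (𝓞 L)).under ℤ := by
      rw [hunder]
      exact Ideal.mem_span_singleton_self _
    rw [Ideal.under, Ideal.mem_comap, Ideal.mem_bot] at h1
    apply hp0
    have : Function.Injective (algebraMap ℤ (𝓞 L)) := FaithfulSMul.algebraMap_injective _ _
    apply this
    rw [h1, map_zero]
  haveI hfin : Finite (𝓞 L ⧸ Q) := Q.finiteQuotientOfFreeOfNeBot hQ0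
  haveI hQp : Q.IsPrime := hQm.isPrime
  obtain ⟨σ, hσ⟩ := IsArithFrobAt.exists_of_isInvariant (R := ℤ) (G := Gal(L/ℚ)) (Q := Q)
  have hcard : Nat.card (ℤ ⧸ Q.under ℤ) = p := by
    rw [hunder, Nat.card_congr (Int.quotientSpanNatEquivZMod p).toEquiv, Nat.card_zmod]
  let φ : 𝓞 L →+* (𝓞 L ⧸ Q) := Ideal.Quotient.mk Q
  have hfrob : ∀ z : 𝓞 L, φ (σ • z) = φ z ^ p := by
    intro z
    have h1 := hσ.mk_apply z
    rw [hcard] at h1
    exact h1
  have hdom : IsDomain (𝓞 L ⧸ Q) := inferInstance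
  -- integers
  have hint : ∀ z : ℤ, φ (z : 𝓞 L) = 0 ↔ (p : ℤ) ∣ z := by
    intro z
    rw [Ideal.Quotient.eq_zero_iff_mem]
    have h1 : (z : 𝓞 L) ∈ Q ↔ z ∈ Q.under ℤ := by
      rw [Ideal.under, Ideal.mem_comap]
      rfl
    rw [h1, hunder, Ideal.mem_span_singleton]
  haveI hchar : CharP (𝓞 L ⧸ Q) p := by
    refine ⟨fun m => ?_⟩
    have h1 := hint m
    rw [Int.natCast_dvd_natCast, Int.cast_natCast, map_natCast] at h1
    exact h1
  let ψ : ZMod p →+* (𝓞 L ⧸ Q) := ZMod.castHom (dvd_refl p) _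
  -- the roots
  have hroots : ∀ u : 𝓞 L, aeval u P = 0 → φ (σ • u) = φ u := by
    intro u hu
    rw [hfrob]
    have h1 : (P.map (Int.castRingHom (𝓞 L ⧸ Q))).eval (φ u) = 0 := by
      rw [eval_map]
      have h2 := congrArg φ hu
      rw [map_zero, aeval_def, hom_eval₂] at h2
      have e : Int.castRingHom (𝓞 L ⧸ Q) = φ.comp (algebraMap ℤ (𝓞 L)) := RingHom.ext_int _ _
      rw [e]
      exact h2
    have h2 : P.map (Int.castRingHom (𝓞 L ⧸ Q)) =
        (P.map (Int.castRingHom (ZMod p))).map ψ := by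
      rw [Polynomial.map_map]
      congr 1
      exact RingHom.ext_int _ _
    rw [h2, hx, Polynomial.map_prod, eval_prod, Finset.prod_eq_zero_iff] at h1
    obtain ⟨i, _, hi⟩ := h1
    rw [Polynomial.map_sub, map_X, map_C, eval_sub, eval_X, eval_C, sub_eq_zero] at hi
    rw [hi, ← map_pow, ZMod.pow_card]
  -- the Frobenius element is trivial
  have hfix : ∀ u : 𝓞 L, aeval u P = 0 → σ • u = u := by
    intro u hu
    by_contra hne
    apply hpb
    rw [← hint, hb]
    have hu1 : u ∈ rts L P := (mem_rts hP u).mpr hu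
    have hu2 : σ • u ∈ rts L P := smul_mem_rts hP σ hu1
    unfold dprod
    rw [map_prod]
    apply Finset.prod_eq_zero (i := σ • u) (Multiset.mem_toFinset.mpr hu2)
    rw [map_prod]
    apply Finset.prod_eq_zero (i := u)
    · rw [Finset.mem_erase]
      exact ⟨fun h => hne h.symm, Multiset.mem_toFinset.mpr hu1⟩
    · rw [map_sub, hroots u hu, sub_self]
  have hσ1 : (σ : L →ₐ[ℚ] L) = AlgHom.id ℚ L := by
    apply AlgHom.ext_of_adjoin_eq_top hgen
    intro u hu
    have hu' : aeval u P = 0 := hu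
    have hui : IsIntegral ℤ u := ⟨P, hP, by rw [← aeval_def]; exact hu'⟩
    let w : 𝓞 L := ⟨u, hui⟩
    have hw : aeval w P = 0 := by
      apply FaithfulSMul.algebraMap_injective (𝓞 L) L
      rw [map_zero]
      have h1 := Polynomial.aeval_algebraMap_apply L w P
      rw [← h1]
      exact hu'
    have h2 := congrArg (algebraMap (𝓞 L) L) (hfix w hw)
    exact h2
  have hall : ∀ z : 𝓞 L, φ z ^ p = φ z := by
    intro z
    rw [← hfrob]
    congr 1
    apply RingOfIntegers.ext
    have h1 := DFunLike.congr_fun hσ1 (z : L)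
    exact h1
  -- the square root
  have hαi : IsIntegral ℤ α := by
    refine ⟨X ^ 2 - C f, monic_X_pow_sub_C f two_ne_zero, ?_⟩
    rw [eval₂_sub, eval₂_X_pow, eval₂_C, pow_two, hα]
    simp
  let a : 𝓞 L := ⟨α, hαi⟩
  have ha : a * a = (f : 𝓞 L) := by
    apply FaithfulSMul.algebraMap_injective (𝓞 L) L
    rw [map_mul, map_intCast]
    exact hα
  have hφa : φ a * φ a = φ (f : 𝓞 L) := by rw [← map_mul, ha]
  by_cases h0 : φ a = 0
  · refine ⟨0, ?_⟩
    rw [h0, mul_zero] at hφa
    have := (hint f).mp hφa.symm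
    simpa using this
  · have hodd : p % 2 = 1 := Nat.odd_iff.1 (hp.out.odd_of_ne_two hp2)
    have h1 : φ a ^ (p - 1) = 1 := by
      have h2 := hall a
      have h3 : φ a ^ p = φ a ^ (p - 1) * φ a := by
        rw [← pow_succ]
        congr 1
        have := hp.out.one_le
        omega
      rw [h3] at h2
      exact mul_right_cancel₀ h0 (by rw [h2, one_mul])
    have h2 : φ (f : 𝓞 L) ^ (p / 2) = 1 := by
      rw [← hφa, ← pow_two, ← pow_mul]
      have : 2 * (p / 2) = p - 1 := by omega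
      rw [this, h1]
    have hf0 : (f : ZMod p) ≠ 0 := by
      intro h
      rw [ZMod.intCast_zmod_eq_zero_iff_dvd] at h
      have h3 := (hint f).mpr h
      rw [← hφa] at h3
      exact h0 (mul_self_eq_zero.mp h3)
    have h3 : (f : ZMod p) ^ (p / 2) = 1 := by
      apply ψ.injective
      rw [map_pow, map_intCast, map_one]
      rw [map_intCast] at h2
      exact h2
    obtain ⟨y, hy⟩ := (ZMod.euler_criterion p hf0).mpr h3
    refine ⟨(y.val : ℤ), ?_⟩
    rw [← ZMod.intCast_zmod_eq_zero_iff_dvd]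
    push_cast
    rw [ZMod.natCast_zmod_val, hy]
    ring

end local_part

end Pool.Agent.R852.BC
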