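import Pool.Agent.H471R4.BW.VIN

set_option autoImplicit false

/-! A character with the values at some primes replaced by one. -/

namespace Pool.Agent.R852.BC

open Finset Pool.Agent.H471R4.BW

variable {N : ℕ} (χ : DirichletCharacter ℂ N)

/-- the value at a prime -/
noncomputable def gv (S : Finset ℕ) (l : ℕ) : ℂ := if l ∈ S then 1 else χ (l : ZMod N)

/-- the completely multiplicative function -/
noncomputable def gS (S : Finset ℕ) (m : ℕ) : ℂ := (m.primeFactorsList.map (gv χ S)).prod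

lemma gS_mul (S : Finset ℕ) {a b : ℕ} (ha : a ≠ 0) (hb : b ≠ 0) :
    gS χ S (a * b) = gS χ S a * gS χ S b := by
  unfold gS
  rw [((Nat.perm_primeFactorsList_mul ha hb).map _).prod_eq, List.map_append, List.prod_append]

lemma gS_prime (S : Finset ℕ) {l : ℕ} (hl : l.Prime) : gS χ S l = gv χ S l := by
  simp [gS, Nat.primeFactorsList_prime hl]

lemma gS_one (S : Finset ℕ) : gS χ S 1 = 1 := by simp [gS]

lemma gS_empty {m : ℕ} (hm : m ≠ 0) : gS χ ∅ m = χ (m : ZMod N) := by
  induction m using Nat.recOnMul with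
  | zero => exact absurd rfl hm
  | one => rw [gS_one]; simp
  | prime p hp => rw [gS_prime χ ∅ hp]; simp [gv]
  | mul a b ha hb =>
    have ha0 : a ≠ 0 := fun h0 => hm (by rw [h0, zero_mul])
    have hb0 : b ≠ 0 := fun h0 => hm (by rw [h0, mul_zero])
    rw [gS_mul χ ∅ ha0 hb0, ha ha0, hb hb0]
    push_cast
    rw [map_mul]

lemma gv_norm_le (S : Finset ℕ) (l : ℕ) : ‖gv χ S l‖ ≤ 1 := by
  unfold gv
  split_ifs
  · simp
  · exact DirichletCharacter.norm_le_one χ _

lemma gS_norm_le (S : Finset ℕ) (m : ℕ) : ‖gS χ S m‖ ≤ 1 := by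
  unfold gS
  induction m.primeFactorsList with
  | nil => simp
  | cons a t ih =>
    rw [List.map_cons, List.prod_cons, norm_mul]
    exact mul_le_one₀ (gv_norm_le χ S a) (norm_nonneg _) ih

lemma gS_insert (S : Finset ℕ) {q m : ℕ} (hqm : ¬ q ∣ m) :
    gS χ (insert q S) m = gS χ S m := by
  unfold gS
  congr 1
  apply List.map_congr_left
  intro l hl
  have h1 : l ≠ q := by
    rintro rfl
    exact hqm (Nat.dvd_of_mem_primeFactorsList hl)
  unfold gv
  simp [Finset.mem_insert, h1]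

lemma gS_good (S : Finset ℕ) {m : ℕ} (h : ∀ l : ℕ, l.Prime → l ∣ m → gv χ S l = 1) :
    gS χ S m = 1 := by
  unfold gS
  apply List.prod_eq_one
  intro x hx
  rw [List.mem_map] at hx
  obtain ⟨l, hl, rfl⟩ := hx
  exact h l (Nat.prime_of_mem_primeFactorsList hl) (Nat.dvd_of_mem_primeFactorsList hl)

/-- the sum -/
noncomputable def G (S : Finset ℕ) (Y : ℕ) : ℂ := ∑ m ∈ Icc 1 Y, gS χ S m

lemma G_empty (Y : ℕ) : G χ ∅ Y = shortSum N χ Y := by
  unfold G shortSum
  refine sum_congr rfl fun m hm => ?_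
  exact gS_empty χ (by have := (mem_Icc.mp hm).1; omega)

lemma sum_dvd (q : ℕ) (hq : 0 < q) (g : ℕ → ℂ) (Y : ℕ) :
    ∑ m ∈ (Icc 1 Y).filter (fun m => q ∣ m), g m = ∑ k ∈ Icc 1 (Y / q), g (q * k) := by
  symm
  refine Finset.sum_bij (fun k _ => q * k) ?_ ?_ ?_ ?_
  · intro k hk
    rw [mem_Icc] at hk
    rw [mem_filter, mem_Icc]
    refine ⟨⟨Nat.mul_pos hq hk.1, ?_⟩, dvd_mul_right _ _⟩
    calc q * k ≤ q * (Y / q) := Nat.mul_le_mul_left _ hk.2
      _ ≤ Y := Nat.mul_div_le Y q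
  · intro a _ b _ hab
    exact Nat.eq_of_mul_eq_mul_left hq hab
  · intro m hm
    rw [mem_filter, mem_Icc] at hm
    obtain ⟨k, rfl⟩ := hm.2
    refine ⟨k, ?_, rfl⟩
    rw [mem_Icc]
    refine ⟨Nat.pos_of_ne_zero (by rintro rfl; simp at hm), ?_⟩
    rw [Nat.le_div_iff_mul_le hq, mul_comm]
    exact hm.1.2
  · intro k _
    rfl

lemma G_split (S : Finset ℕ) {q : ℕ} (hq : q.Prime) (Y : ℕ) :
    G χ S Y = ∑ m ∈ (Icc 1 Y).filter (fun m => ¬ q ∣ m), gS χ S m + gv χ S q * G χ S (Y / q) := by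
  unfold G
  rw [← Finset.sum_filter_add_sum_filter_not (Icc 1 Y) (fun m => q ∣ m), add_comm,
    sum_dvd q hq.pos, mul_sum]
  congr 1
  refine sum_congr rfl fun k hk => ?_
  rw [gS_mul χ S hq.ne_zero (by have := (mem_Icc.mp hk).1; omega), gS_prime χ S hq]

lemma G_step (S : Finset ℕ) {q : ℕ} (hq : q.Prime) (Y : ℕ) :
    ‖G χ (insert q S) Y‖ ≤ ‖G χ (insert q S) (Y / q)‖ + ‖G χ S Y‖ + ‖G χ S (Y / q)‖ := by
  have h1 := G_split χ (insert q S) hq Y
  have h2 := G_split χ S hq Y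
  have h3 : gv χ (insert q S) q = 1 := by simp [gv]
  have h4 : ∑ m ∈ (Icc 1 Y).filter (fun m => ¬ q ∣ m), gS χ (insert q S) m =
      ∑ m ∈ (Icc 1 Y).filter (fun m => ¬ q ∣ m), gS χ S m :=
    sum_congr rfl fun m hm => gS_insert χ S (mem_filter.mp hm).2
  have h5 : G χ (insert q S) Y = G χ (insert q S) (Y / q) + G χ S Y -
      gv χ S q * G χ S (Y / q) := by
    rw [h1, h2, h3, h4]
    ring
  rw [h5]
  refine (norm_sub_le _ _).trans (add_le_add (norm_add_le _ _) ?_)
  rw [norm_mul]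
  exact mul_le_of_le_one_left (norm_nonneg _) (gv_norm_le χ S q)

/-- the loss at a prime -/
noncomputable def rho (q : ℕ) : ℝ := (Real.sqrt q + 1) / (Real.sqrt q - 1)

lemma sqrt_gt {q : ℕ} (hq : q.Prime) : 7 / 5 < Real.sqrt q := by
  rw [Real.lt_sqrt (by norm_num)]
  have : (2 : ℝ) ≤ q := by exact_mod_cast hq.two_le
  nlinarith

lemma rho_one_le {q : ℕ} (hq : q.Prime) : 1 ≤ rho q := by
  have := sqrt_gt hq
  unfold rho
  rw [le_div_iff₀ (by linarith)]
  linarith

lemma rho_le {q : ℕ} (hq : q.Prime) : rho q ≤ 6 := by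
  have := sqrt_gt hq
  unfold rho
  rw [div_le_iff₀ (by linarith)]
  linarith

lemma bound_step (S : Finset ℕ) {q : ℕ} (hq : q.Prime) (X : ℕ) (a b : ℝ) (ha : 0 ≤ a) (hb : 0 ≤ b)
    (h : ∀ Y ≤ X, ‖G χ S Y‖ ≤ a * Y + b * Real.sqrt Y) :
    ∀ Y ≤ X, ‖G χ (insert q S) Y‖ ≤ rho q * (a * Y + b * Real.sqrt Y) := by
  intro Y
  induction Y using Nat.strong_induction_on with
  | _ Y ih =>
    intro hYX
    rcases Nat.eq_zero_or_pos Y with h0 | h0
    · subst h0
      simp [G]
    · have hlt : Y / q < Y := Nat.div_lt_self h0 hq.one_lt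
      have h1 := ih (Y / q) hlt (hlt.le.trans hYX)
      have h2 := h Y hYX
      have h3 := h (Y / q) (hlt.le.trans hYX)
      have h4 := G_step χ S hq Y
      set s := Real.sqrt q with hs
      have hs1 : 7 / 5 < s := sqrt_gt hq
      have hs0 : 0 < s := by linarith
      have hqs : (q : ℝ) = s * s := (Real.mul_self_sqrt (Nat.cast_nonneg q)).symm
      have h5 : (((Y / q : ℕ) : ℕ) : ℝ) ≤ Y / (s * s) := by
        rw [← hqs]
        exact Nat.cast_div_le
      have h6 : Real.sqrt (((Y / q : ℕ) : ℕ) : ℝ) ≤ Real.sqrt Y / s := by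
        calc Real.sqrt (((Y / q : ℕ) : ℕ) : ℝ) ≤ Real.sqrt (Y / (s * s)) := Real.sqrt_le_sqrt h5
          _ = Real.sqrt Y / s := by
            rw [Real.sqrt_div (Nat.cast_nonneg Y), Real.sqrt_mul_self hs0.le]
      have hY0 : (0 : ℝ) ≤ Y := Nat.cast_nonneg Y
      have h7 : (Y : ℝ) / (s * s) ≤ Y / s := by
        apply div_le_div_of_nonneg_left hY0 hs0
        nlinarith
      have hρ : 1 ≤ rho q := rho_one_le hq
      have hid : rho q / s + 1 + 1 / s = rho q := by
        unfold rho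
        rw [← hs]
        have : s - 1 ≠ 0 := by linarith
        field_simp
        ring
      have h8 : a * (((Y / q : ℕ) : ℕ) : ℝ) + b * Real.sqrt (((Y / q : ℕ) : ℕ) : ℝ) ≤
          (a * Y + b * Real.sqrt Y) / s := by
        have e1 : a * (((Y / q : ℕ) : ℕ) : ℝ) ≤ a * (Y / s) :=
          mul_le_mul_of_nonneg_left (h5.trans h7) ha
        have e2 : b * Real.sqrt (((Y / q : ℕ) : ℕ) : ℝ) ≤ b * (Real.sqrt Y / s) :=
          mul_le_mul_of_nonneg_left h6 hb
        calc _ ≤ a * (Y / s) + b * (Real.sqrt Y / s) := add_le_add e1 e2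
          _ = _ := by ring
      calc ‖G χ (insert q S) Y‖ ≤ _ := h4
        _ ≤ rho q * ((a * Y + b * Real.sqrt Y) / s) + (a * Y + b * Real.sqrt Y) +
            (a * Y + b * Real.sqrt Y) / s :=
            add_le_add (add_le_add (h1.trans (mul_le_mul_of_nonneg_left h8 (by linarith))) h2)
              (h3.trans h8)
        _ = (rho q / s + 1 + 1 / s) * (a * Y + b * Real.sqrt Y) := by ring
        _ = _ := by rw [hid]

theorem G_bound (S : Finset ℕ) (hS : ∀ q ∈ S, q.Prime) (X : ℕ) (a b : ℝ) (ha : 0 ≤ a)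
    (hb : 0 ≤ b) (h : ∀ Y ≤ X, ‖shortSum N χ Y‖ ≤ a * Y + b * Real.sqrt Y) :
    ∀ Y ≤ X, ‖G χ S Y‖ ≤ (∏ q ∈ S, rho q) * (a * Y + b * Real.sqrt Y) := by
  induction S using Finset.induction_on with
  | empty =>
    intro Y hY
    rw [G_empty, prod_empty, one_mul]
    exact h Y hY
  | insert q S hqS ih =>
    have hq : q.Prime := hS q (mem_insert_self q S)
    have h1 := ih (fun l hl => hS l (mem_insert_of_mem hl))
    set P := ∏ q ∈ S, rho q with hP
    have hP0 : 0 ≤ P := prod_nonneg fun l hl => by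
      have := rho_one_le (hS l (mem_insert_of_mem hl))
      linarith
    have h2 := bound_step χ S hq X (P * a) (P * b) (by positivity) (by positivity) (fun Y hY => by
      have := h1 Y hY
      linarith)
    intro Y hY
    rw [prod_insert hqS]
    have := h2 Y hY
    linarith

/-- the product of the losses -/
theorem prod_rho_le (ε : ℝ) (hε : 0 < ε) : ∃ C : ℝ, 0 < C ∧ ∀ (S : Finset ℕ) (Q : ℝ),
    (∀ q ∈ S, q.Prime) → ((∏ q ∈ S, q : ℕ) : ℝ) ≤ Q → ∏ q ∈ S, rho q ≤ C * Q ^ ε := by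
  obtain ⟨L, hL⟩ := exists_nat_ge ((6 : ℝ) ^ (1 / ε))
  refine ⟨(6 : ℝ) ^ L, by positivity, fun S Q hS hQ => ?_⟩
  have hL6 : ∀ q : ℕ, L ≤ q → (6 : ℝ) ≤ (q : ℝ) ^ ε := by
    intro q hq
    have h1 : ((6 : ℝ) ^ (1 / ε)) ^ ε ≤ (q : ℝ) ^ ε :=
      Real.rpow_le_rpow (by positivity) (hL.trans (by exact_mod_cast hq)) hε.le
    rwa [← Real.rpow_mul (by norm_num), one_div_mul_cancel hε.ne', Real.rpow_one] at h1
  have h1 : ∀ q ∈ S, rho q ≤ (if q < L then 6 else 1) * (q : ℝ) ^ ε := by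
    intro q hq
    have hqp := hS q hq
    have hq1 : (1 : ℝ) ≤ (q : ℝ) ^ ε :=
      Real.one_le_rpow (by exact_mod_cast hqp.one_lt.le) hε.le
    split_ifs with h
    · have := rho_le hqp
      nlinarith
    · rw [one_mul]
      exact (rho_le hqp).trans (hL6 q (by omega))
  calc ∏ q ∈ S, rho q ≤ ∏ q ∈ S, ((if q < L then 6 else 1) * (q : ℝ) ^ ε) :=
        Finset.prod_le_prod (fun q hq => by have := rho_one_le (hS q hq); linarith) h1
    _ = (∏ q ∈ S, (if q < L then (6 : ℝ) else 1)) * ((∏ q ∈ S, q : ℕ) : ℝ) ^ ε := by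
        rw [prod_mul_distrib]
        congr 1
        push_cast
        rw [Real.finsetProd_rpow _ _ (fun _ _ => Nat.cast_nonneg _)]
    _ ≤ (6 : ℝ) ^ L * Q ^ ε := by
        refine mul_le_mul ?_ (Real.rpow_le_rpow (Nat.cast_nonneg _) hQ hε.le) (by positivity)
          (by positivity)
        rw [prod_ite, prod_const, prod_const_one, mul_one]
        apply pow_le_pow_right₀ (by norm_num)
        calc #(S.filter fun q => q < L) ≤ #(range L) := by
              apply card_le_card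
              intro q hq
              rw [mem_range]
              exact (mem_filter.mp hq).2
          _ = L := card_range L

open Classical in
/-- the exceptional primes -/
noncomputable def exc (y : ℕ) : Finset ℕ :=
  (range (y + 1)).filter (fun l : ℕ => l.Prime ∧ χ (l : ZMod N) ≠ 1)

/-- Vinogradov's inequality for the modified function -/
theorem vinG (y X : ℕ) : (X : ℝ) * (1 - 2 * badSum N χ y X) ≤ ‖G χ (exc χ y) X‖ := by
  classical
  set L := (Ioc y X).filter (fun l : ℕ => l.Prime ∧ χ (l : ZMod N) ≠ 1) with hL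
  have hpt : ∀ m ∈ Icc 1 X, (1 : ℝ) - 2 * ((L.filter fun l => l ∣ m).card : ℝ) ≤
      (gS χ (exc χ y) m).re := by
    intro m hm
    have hm1 := (mem_Icc.1 hm).1
    have hm2 := (mem_Icc.1 hm).2
    by_cases hall : ∀ l : ℕ, l.Prime → l ∣ m → gv χ (exc χ y) l = 1
    · rw [gS_good χ _ hall]
      simp
    · push Not at hall
      obtain ⟨l, hl, hd, hne⟩ := hall
      have hlS : l ∉ exc χ y := by
        intro h
        exact hne (by simp [gv, h])
      have hne2 : χ (l : ZMod N) ≠ 1 := by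
        intro h
        exact hne (by simp [gv, hlS, h])
      have hlm : l ∈ L.filter fun l => l ∣ m := by
        rw [mem_filter, hL, mem_filter, mem_Ioc]
        refine ⟨⟨⟨?_, ?_⟩, hl, hne2⟩, hd⟩
        · by_contra hc
          apply hlS
          unfold exc
          rw [mem_filter, mem_range]
          exact ⟨by omega, hl, hne2⟩
        · exact (Nat.le_of_dvd (by omega) hd).trans hm2
      have hc : (1 : ℝ) ≤ ((L.filter fun l => l ∣ m).card : ℝ) := by
        exact_mod_cast Finset.card_pos.2 ⟨l, hlm⟩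
      have hre : -1 ≤ (gS χ (exc χ y) m).re := by
        have h1 := Complex.abs_re_le_norm (gS χ (exc χ y) m)
        have h2 := gS_norm_le χ (exc χ y) m
        have := (abs_le.1 (h1.trans h2)).1
        linarith
      linarith
  have hsum : (∑ m ∈ Icc 1 X, ((1 : ℝ) - 2 * ((L.filter fun l => l ∣ m).card : ℝ))) ≤
      (G χ (exc χ y) X).re := by
    unfold G
    rw [Complex.re_sum]
    exact sum_le_sum hpt
  have hcount : (∑ m ∈ Icc 1 X, ((L.filter fun l => l ∣ m).card : ℝ)) ≤ X * badSum N χ y X := by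
    have e1 : (∑ m ∈ Icc 1 X, ((L.filter fun l => l ∣ m).card : ℝ)) =
        ∑ l ∈ L, (((Icc 1 X).filter fun m => l ∣ m).card : ℝ) := by
      simp only [Finset.card_filter, Nat.cast_sum]
      rw [sum_comm]
    rw [e1]
    unfold badSum
    rw [mul_sum]
    refine le_of_le_of_eq (sum_le_sum (s := L) fun l hl => ?_) (by
      refine sum_congr ?_ fun _ _ => rfl
      rw [hL])
    have hcard : ((Icc 1 X).filter fun m => l ∣ m).card = X / l := by
      have h := Nat.Ioc_filter_dvd_card_eq_div X l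
      rw [← h]
      congr 1
    rw [hcard]
    have := @Nat.cast_div_le ℝ _ _ _ X l
    calc ((X / l : ℕ) : ℝ) ≤ (X : ℝ) / l := this
      _ = X * (1 / (l : ℝ)) := by ring
  have htot : (∑ m ∈ Icc 1 X, ((1 : ℝ) - 2 * ((L.filter fun l => l ∣ m).card : ℝ))) =
      X - 2 * ∑ m ∈ Icc 1 X, ((L.filter fun l => l ∣ m).card : ℝ) := by
    rw [sum_sub_distrib, ← mul_sum]
    simp
  have hre : (G χ (exc χ y) X).re ≤ ‖G χ (exc χ y) X‖ := Complex.re_le_norm _
  nlinarith [hsum, hcount, htot, hre]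

end Pool.Agent.R852.BC
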