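import Pool.Agent.H471R4.BW.Stubs
import Pool.Agent.H471R4.BW.CS0
import Pool.Agent.H471R4.BW.CS1
import Pool.Agent.H471R4.BW.TUP

set_option autoImplicit false

/-! Complete sums of real characters modulo `8 N`, `N` odd and squarefree. -/

namespace Pool.Agent.R852.BC

open Finset Pool.Agent.H471R4.BW

/-- the product of a character modulo `q` and the Jacobi symbol modulo `N` -/
noncomputable def chi (q N : ℕ) [NeZero q] [NeZero N] (ψ : DirichletCharacter ℂ q) :
    DirichletCharacter ℂ (q * N) where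
  toFun x := ψ (ZMod.castHom (dvd_mul_right q N) (ZMod q) x) *
    jchar N (ZMod.castHom (dvd_mul_left N q) (ZMod N) x)
  map_one' := by simp
  map_mul' a b := by simp only [map_mul]; ring
  map_nonunit' a ha := by
    haveI : NeZero (q * N) := ⟨mul_ne_zero (NeZero.ne q) (NeZero.ne N)⟩
    have h1 : ¬ Nat.Coprime a.val (q * N) := fun h => ha (by
      have := (ZMod.isUnit_iff_coprime a.val (q * N)).mpr h
      rwa [ZMod.natCast_zmod_val] at this)
    rw [Nat.coprime_mul_iff_right] at h1
    have e1 : ZMod.castHom (dvd_mul_right q N) (ZMod q) a = ((a.val : ℕ) : ZMod q) := by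
      conv_lhs => rw [← ZMod.natCast_zmod_val a]
      rw [map_natCast]
    have e2 : ZMod.castHom (dvd_mul_left N q) (ZMod N) a = ((a.val : ℕ) : ZMod N) := by
      conv_lhs => rw [← ZMod.natCast_zmod_val a]
      rw [map_natCast]
    by_cases h2 : Nat.Coprime a.val q
    · have h3 : ¬ Nat.Coprime a.val N := fun h => h1 ⟨h2, h⟩
      have h4 : ¬ IsUnit ((a.val : ℕ) : ZMod N) := fun h =>
        h3 ((ZMod.isUnit_iff_coprime a.val N).mp h)
      rw [e2, MulChar.map_nonunit _ h4, mul_zero]
    · have h4 : ¬ IsUnit ((a.val : ℕ) : ZMod q) := fun h =>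
        h2 ((ZMod.isUnit_iff_coprime a.val q).mp h)
      rw [e1, MulChar.map_nonunit _ h4, zero_mul]

lemma chi_nat (q N : ℕ) [NeZero q] [NeZero N] (ψ : DirichletCharacter ℂ q) (m : ℕ) :
    chi q N ψ (m : ZMod (q * N)) = ψ (m : ZMod q) * jchar N (m : ZMod N) := by
  have : chi q N ψ (m : ZMod (q * N)) = ψ (ZMod.castHom (dvd_mul_right q N) (ZMod q) (m : ZMod (q * N))) *
    jchar N (ZMod.castHom (dvd_mul_left N q) (ZMod N) (m : ZMod (q * N))) := rfl
  rw [this, map_natCast (ZMod.castHom (dvd_mul_right q N) (ZMod q)),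
    map_natCast (ZMod.castHom (dvd_mul_left N q) (ZMod N))]

/-- the complete sum -/
noncomputable def sumT (N : ℕ) [NeZero N] (χ : DirichletCharacter ℂ N) {r : ℕ} (b c : Fin r → ℕ) : ℂ :=
  ∑ x : ZMod N, (∏ i, χ (x + (b i : ZMod N))) * ∏ i, (starRingEnd ℂ) (χ (x + (c i : ZMod N)))

lemma sumT_mul (a b : ℕ) [NeZero a] [NeZero b] [NeZero (a * b)] (hco : Nat.Coprime a b)
    (χ : DirichletCharacter ℂ (a * b)) (χ₁ : DirichletCharacter ℂ a) (χ₂ : DirichletCharacter ℂ b)
    (h : ∀ x : ZMod (a * b), χ x = χ₁ (ZMod.castHom (dvd_mul_right a b) (ZMod a) x) *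
      χ₂ (ZMod.castHom (dvd_mul_left b a) (ZMod b) x)) {r : ℕ} (u v : Fin r → ℕ) :
    sumT (a * b) χ u v = sumT a χ₁ u v * sumT b χ₂ u v := by
  unfold sumT
  let e := ZMod.chineseRemainder hco
  have hφ : ∀ x, (e x).1 = ZMod.castHom (dvd_mul_right a b) (ZMod a) x := by
    intro x
    have : ((RingHom.fst (ZMod a) (ZMod b)).comp e.toRingHom) =
      ZMod.castHom (dvd_mul_right a b) (ZMod a) := Subsingleton.elim _ _
    exact DFunLike.congr_fun this x
  have hψ : ∀ x, (e x).2 = ZMod.castHom (dvd_mul_left b a) (ZMod b) x := by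
    intro x
    have : ((RingHom.snd (ZMod a) (ZMod b)).comp e.toRingHom) =
      ZMod.castHom (dvd_mul_left b a) (ZMod b) := Subsingleton.elim _ _
    exact DFunLike.congr_fun this x
  have e1 : ∑ x : ZMod (a * b), (∏ i, χ (x + (u i : ZMod (a * b)))) *
      ∏ i, (starRingEnd ℂ) (χ (x + (v i : ZMod (a * b)))) =
      ∑ x : ZMod (a * b), (fun w : ZMod a × ZMod b =>
        ((∏ i, χ₁ (w.1 + (u i : ZMod a))) * ∏ i, (starRingEnd ℂ) (χ₁ (w.1 + (v i : ZMod a)))) *
        ((∏ i, χ₂ (w.2 + (u i : ZMod b))) * ∏ i, (starRingEnd ℂ) (χ₂ (w.2 + (v i : ZMod b)))))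
        (e.toEquiv x) := by
    refine Finset.sum_congr rfl fun x _ => ?_
    have k1 : (e.toEquiv x).1 = ZMod.castHom (dvd_mul_right a b) (ZMod a) x := hφ x
    have k2 : (e.toEquiv x).2 = ZMod.castHom (dvd_mul_left b a) (ZMod b) x := hψ x
    simp only [k1, k2, h, map_mul, map_add, map_natCast, Finset.prod_mul_distrib]
    ring
  rw [e1, Equiv.sum_comp e.toEquiv (fun w : ZMod a × ZMod b =>
        ((∏ i, χ₁ (w.1 + (u i : ZMod a))) * ∏ i, (starRingEnd ℂ) (χ₁ (w.1 + (v i : ZMod a)))) *
        ((∏ i, χ₂ (w.2 + (u i : ZMod b))) * ∏ i, (starRingEnd ℂ) (χ₂ (w.2 + (v i : ZMod b))))),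
    Finset.sum_mul_sum, Fintype.sum_prod_type]

lemma sumT_le (N : ℕ) [NeZero N] (χ : DirichletCharacter ℂ N) {r : ℕ} (b c : Fin r → ℕ) :
    ‖sumT N χ b c‖ ≤ N := by
  unfold sumT
  refine (norm_sum_le _ _).trans ?_
  calc ∑ x : ZMod N, ‖(∏ i, χ (x + (b i : ZMod N))) *
        ∏ i, (starRingEnd ℂ) (χ (x + (c i : ZMod N)))‖ ≤ ∑ _x : ZMod N, (1 : ℝ) := by
        refine Finset.sum_le_sum fun x _ => ?_
        rw [norm_mul, norm_prod, norm_prod]
        refine mul_le_one₀ (Finset.prod_le_one (fun i _ => norm_nonneg _) fun i _ => ?_)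
          (Finset.prod_nonneg fun i _ => norm_nonneg _)
          (Finset.prod_le_one (fun i _ => norm_nonneg _) fun i _ => ?_)
        · exact χ.norm_le_one _
        · rw [RCLike.norm_conj]
          exact χ.norm_le_one _
    _ = N := by simp

/-- the values of both tuples -/
def vals {r : ℕ} (b c : Fin r → ℕ) : Fin r ⊕ Fin r → ℕ := Sum.elim b c

lemma jchar_mul (a b : ℕ) [NeZero a] [NeZero b] [NeZero (a * b)] (x : ZMod (a * b)) :
    jchar (a * b) x = jchar a (ZMod.castHom (dvd_mul_right a b) (ZMod a) x) *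
      jchar b (ZMod.castHom (dvd_mul_left b a) (ZMod b) x) := by
  have hx : x = ((x.val : ℕ) : ZMod (a * b)) := (ZMod.natCast_zmod_val x).symm
  rw [hx, map_natCast (ZMod.castHom (dvd_mul_right a b) (ZMod a)),
    map_natCast (ZMod.castHom (dvd_mul_left b a) (ZMod b)), jchar_apply, jchar_apply, jchar_apply,
    jacobiSym.mul_right' _ (NeZero.ne a) (NeZero.ne b)]
  push_cast
  ring

/-- the local sum when some value is unique modulo `p` -/
lemma local_le (p : ℕ) [Fact p.Prime] (hp2 : p ≠ 2) {r : ℕ} (b c : Fin r → ℕ) (i₀ : Fin r ⊕ Fin r)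
    (h : ∀ j, j ≠ i₀ → (vals b c j : ZMod p) ≠ (vals b c i₀ : ZMod p)) :
    ‖sumT p (jchar p) b c‖ ≤ 10 * r * Real.sqrt p := by
  classical
  have hp : p.Prime := Fact.out
  have key := cs0 p hp2 r p le_rfl (fun i => b i % p) (fun i => c i % p)
    (fun i => Nat.mod_lt _ hp.pos) (fun i => Nat.mod_lt _ hp.pos) ?_
  · have h1 : sumT p (jchar p) b c =
        ((∑ x : ZMod p, ((quadraticChar (ZMod p) ((∏ i, (x + ((b i % p : ℕ) : ZMod p))) *
          ∏ i, (x + ((c i % p : ℕ) : ZMod p))) : ℤ) : ℝ) : ℝ) : ℂ) := by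
      unfold sumT
      rw [Complex.ofReal_sum]
      refine Finset.sum_congr rfl fun x _ => ?_
      rw [map_mul, map_prod, map_prod]
      push_cast
      simp only [CS1x.jchar_eq, map_intCast, ZMod.natCast_mod]
    rw [h1, Complex.norm_real, Real.norm_eq_abs]
    exact key
  · refine ⟨vals b c i₀ % p, ?_⟩
    have hne : ∀ j, j ≠ i₀ → vals b c j % p ≠ vals b c i₀ % p := by
      intro j hj h2
      exact h j hj ((ZMod.natCast_eq_natCast_iff' _ _ _).mpr h2)
    rcases i₀ with i | i
    · have e1 : (univ.filter fun k => b k % p = vals b c (Sum.inl i) % p) = {i} := by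
        ext k
        simp only [mem_filter, mem_univ, true_and, mem_singleton]
        constructor
        · intro hk
          by_contra hki
          exact hne (Sum.inl k) (fun h3 => hki (Sum.inl.inj h3)) hk
        · rintro rfl; rfl
      have e2 : (univ.filter fun k => c k % p = vals b c (Sum.inl i) % p) = ∅ := by
        rw [Finset.filter_eq_empty_iff]
        intro k _ hk
        exact hne (Sum.inr k) (fun h3 => by cases h3) hk
      rw [e1, e2]; rfl
    · have e1 : (univ.filter fun k => c k % p = vals b c (Sum.inr i) % p) = {i} := by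
        ext k
        simp only [mem_filter, mem_univ, true_and, mem_singleton]
        constructor
        · intro hk
          by_contra hki
          exact hne (Sum.inr k) (fun h3 => hki (Sum.inr.inj h3)) hk
        · rintro rfl; rfl
      have e2 : (univ.filter fun k => b k % p = vals b c (Sum.inr i) % p) = ∅ := by
        rw [Finset.filter_eq_empty_iff]
        intro k _ hk
        exact hne (Sum.inl k) (fun h3 => by cases h3) hk
      rw [e1, e2]; rfl

/-- the difference of two natural numbers -/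
def dist' (a b : ℕ) : ℕ := ((a : ℤ) - b).natAbs

/-- the gcd factor -/
def gfac (N : ℕ) {r : ℕ} (b c : Fin r → ℕ) (i₀ : Fin r ⊕ Fin r) : ℕ :=
  ∏ j ∈ univ.erase i₀, Nat.gcd N (dist' (vals b c i₀) (vals b c j))

lemma gfac_mul (m n : ℕ) (hmn : Nat.Coprime m n) {r : ℕ} (b c : Fin r → ℕ) (i₀ : Fin r ⊕ Fin r) :
    gfac (m * n) b c i₀ = gfac m b c i₀ * gfac n b c i₀ := by
  unfold gfac
  rw [← Finset.prod_mul_distrib]
  refine Finset.prod_congr rfl fun j _ => ?_
  rw [Nat.gcd_comm, Nat.Coprime.gcd_mul _ hmn, Nat.gcd_comm _ m, Nat.gcd_comm _ n]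

lemma gfac_pos (N : ℕ) (hN : 0 < N) {r : ℕ} (b c : Fin r → ℕ) (i₀ : Fin r ⊕ Fin r) :
    0 < gfac N b c i₀ :=
  Finset.prod_pos fun j _ => Nat.gcd_pos_of_pos_left _ hN

lemma prime_le (p : ℕ) [Fact p.Prime] (hp2 : p ≠ 2) {r : ℕ} (b c : Fin r → ℕ) (i₀ : Fin r ⊕ Fin r) :
    ‖sumT p (jchar p) b c‖ ≤ 10 * r * Real.sqrt p * gfac p b c i₀ := by
  have hp : p.Prime := Fact.out
  have hr : (1 : ℝ) ≤ r := by
    have : 0 < r := by
      rcases i₀ with i | i <;> exact i.pos
    exact_mod_cast this
  have hs : 1 ≤ Real.sqrt p := by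
    rw [Real.one_le_sqrt]
    exact_mod_cast hp.one_lt.le
  have hg : (1 : ℝ) ≤ gfac p b c i₀ := by exact_mod_cast gfac_pos p hp.pos b c i₀
  by_cases h : ∀ j, j ≠ i₀ → (vals b c j : ZMod p) ≠ (vals b c i₀ : ZMod p)
  · refine (local_le p hp2 b c i₀ h).trans ?_
    exact le_mul_of_one_le_right (by positivity) hg
  · push Not at h
    obtain ⟨j, hj, hjp⟩ := h
    have hd : p ∣ dist' (vals b c i₀) (vals b c j) := by
      unfold dist'
      rw [← Int.natCast_dvd]
      rw [← ZMod.intCast_zmod_eq_zero_iff_dvd]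
      push_cast
      rw [hjp, sub_self]
    have hle : p ≤ gfac p b c i₀ := by
      apply Nat.le_of_dvd (gfac_pos p hp.pos b c i₀)
      have h1 : Nat.gcd p (dist' (vals b c i₀) (vals b c j)) = p := Nat.gcd_eq_left hd
      conv_lhs => rw [← h1]
      exact Finset.dvd_prod_of_mem _ (mem_erase.mpr ⟨hj, mem_univ _⟩)
    have h2 : (p : ℝ) ≤ gfac p b c i₀ := by exact_mod_cast hle
    refine (sumT_le p _ b c).trans (h2.trans ?_)
    refine le_mul_of_one_le_left (by linarith) ?_
    nlinarith

/-- **the complete sum of the Jacobi symbol for odd squarefree moduli** -/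
theorem jac_le (N : ℕ) [NeZero N] (hodd : Odd N) (hsq : Squarefree N) {r : ℕ} (b c : Fin r → ℕ)
    (i₀ : Fin r ⊕ Fin r) :
    ‖sumT N (jchar N) b c‖ ≤ (10 * r : ℝ) ^ N.primeFactors.card * Real.sqrt N * gfac N b c i₀ := by
  have H : ∀ n : ℕ, ∀ N : ℕ, N ≤ n → ∀ [NeZero N], Odd N → Squarefree N →
      ‖sumT N (jchar N) b c‖ ≤ (10 * r : ℝ) ^ N.primeFactors.card * Real.sqrt N * gfac N b c i₀ := by
    intro n
    induction n with
    | zero =>
      intro N hN hne
      exact absurd (Nat.le_zero.mp hN) (NeZero.ne N)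
    | succ n ih =>
      intro N hN _ hodd hsq
      by_cases h1 : N = 1
      · subst h1
        refine (sumT_le 1 _ b c).trans ?_
        have : (1 : ℝ) ≤ gfac 1 b c i₀ := by exact_mod_cast gfac_pos 1 one_pos b c i₀
        simpa using this
      · set p := N.minFac with hp
        have hpp : p.Prime := Nat.minFac_prime h1
        haveI : Fact p.Prime := ⟨hpp⟩
        obtain ⟨m, hm⟩ := Nat.minFac_dvd N
        rw [← hp] at hm
        have hm0 : m ≠ 0 := by
          rintro rfl
          rw [mul_zero] at hm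
          exact NeZero.ne N hm
        haveI : NeZero m := ⟨hm0⟩
        haveI : NeZero (p * m) := ⟨mul_ne_zero hpp.ne_zero hm0⟩
        have hsq' : Squarefree (p * m) := hm ▸ hsq
        have hco : Nat.Coprime p m := Nat.coprime_of_squarefree_mul hsq'
        have hodd' : Odd (p * m) := hm ▸ hodd
        have hpo : Odd p := (Nat.odd_mul.mp hodd').1
        have hmo : Odd m := (Nat.odd_mul.mp hodd').2
        have hp2 : p ≠ 2 := by
          rintro h2
          rw [h2] at hpo
          exact absurd hpo (by decide)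
        have hmn : m ≤ n := by
          have h3 : 2 ≤ p := hpp.two_le
          have h4 : 0 < m := Nat.pos_of_ne_zero hm0
          have h5 : p * m ≤ n + 1 := hm ▸ hN
          nlinarith
        have hmsq : Squarefree m := hsq'.of_mul_right
        have key := ih m hmn hmo hmsq
        have hgoal : ‖sumT (p * m) (jchar (p * m)) b c‖ ≤
            (10 * r : ℝ) ^ (p * m).primeFactors.card * Real.sqrt ((p * m : ℕ) : ℝ) *
              gfac (p * m) b c i₀ := by
          rw [sumT_mul p m hco _ (jchar p) (jchar m) (jchar_mul p m), norm_mul, gfac_mul p m hco,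
            Nat.Coprime.primeFactors_mul hco,
            Finset.card_union_of_disjoint (Nat.Coprime.disjoint_primeFactors hco),
            hpp.primeFactors, Finset.card_singleton, Nat.cast_mul, Nat.cast_mul,
            Real.sqrt_mul (Nat.cast_nonneg p), pow_add, pow_one]
          refine (mul_le_mul (prime_le p hp2 b c i₀) key (norm_nonneg _) (by positivity)).trans
            (le_of_eq ?_)
          ring
        revert hgoal
        generalize_proofs
        intro hgoal
        have : ∀ (K : ℕ) [NeZero K], K = N → ‖sumT K (jchar K) b c‖ ≤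
            (10 * r : ℝ) ^ K.primeFactors.card * Real.sqrt (K : ℝ) * gfac K b c i₀ →
            ‖sumT N (jchar N) b c‖ ≤
            (10 * r : ℝ) ^ N.primeFactors.card * Real.sqrt (N : ℝ) * gfac N b c i₀ := by
          intro K _ hK hk
          subst hK
          exact hk
        exact this (p * m) hm.symm hgoal
  exact H N N le_rfl hodd hsq

/-- **the complete sum of the product with a character modulo `q`** -/
theorem chi_le (q N : ℕ) [NeZero q] [NeZero N] [NeZero (q * N)] (hco : Nat.Coprime q N)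
    (hodd : Odd N) (hsq : Squarefree N) (ψ : DirichletCharacter ℂ q) {r : ℕ} (b c : Fin r → ℕ)
    (i₀ : Fin r ⊕ Fin r) :
    ‖sumT (q * N) (chi q N ψ) b c‖ ≤
      q * ((10 * r : ℝ) ^ N.primeFactors.card * Real.sqrt N * gfac N b c i₀) := by
  rw [sumT_mul q N hco _ ψ (jchar N) (fun x => rfl), norm_mul]
  exact mul_le_mul (sumT_le q ψ b c) (jac_le N hodd hsq b c i₀) (norm_nonneg _) (by positivity)

end Pool.Agent.R852.BC
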