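import Pool.Agent.R852.BC.Bur8
import Pool.Agent.R852.BC.Gs
import Pool.Agent.R852.BC.Char
import Pool.Agent.H38R2.CG.PV
import Pool.Agent.H471R4.BW.SNG

set_option autoImplicit false
set_option maxHeartbeats 4000000

/-! An integer `D` with `|D| ≤ y ^ (4 √e - ε)` which is a square modulo all primes `≤ y` is a square. -/

namespace Pool.Agent.R852.BC

open Finset Filter Pool.Agent.H471R4.BW

lemma final_ineq : ∃ C : ℝ, 0 ≤ C ∧ ∀ (N : ℕ) (χ : DirichletCharacter ℂ N) (y X : ℕ) (κ θ : ℝ),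
    2 ≤ y → 1 ≤ X → 1 ≤ κ → Real.log X ≤ κ * Real.log y → ‖G χ (exc χ y) X‖ ≤ θ * X →
      1 - 2 * (Real.log κ + C / Real.log y) ≤ θ := by
  obtain ⟨C, hC0, hC⟩ := Pool.Agent.Helper923.HMertens.mertens_ratio
  refine ⟨C, hC0, fun N χ y X κ θ hy hX hκ hlog hG => ?_⟩
  have hX0 : (0 : ℝ) < X := by exact_mod_cast hX
  have hly : 0 < Real.log y := Real.log_pos (by exact_mod_cast (by omega : 1 < y))
  have h1 : (X : ℝ) * (1 - 2 * badSum N χ y X) ≤ X * θ := (vinG χ y X).trans (by linarith)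
  have h2 := le_of_mul_le_mul_left h1 hX0
  have hlκ : 0 ≤ Real.log κ := Real.log_nonneg hκ
  have hCl : 0 ≤ C / Real.log y := by positivity
  have h3 : badSum N χ y X ≤ Real.log κ + C / Real.log y := by
    have hbs := SNG_badSum_le N χ y X
    rcases le_or_gt X y with hXy | hXy
    · rw [Finset.Ioc_eq_empty_of_le hXy, Finset.filter_empty, Finset.sum_empty] at hbs
      linarith
    · have hm2 := (abs_le.mp (hC y X hy hXy.le)).2
      have hlX : 0 < Real.log X := Real.log_pos (by exact_mod_cast (by omega : 1 < X))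
      have hr : Real.log X / Real.log y ≤ κ := by rwa [div_le_iff₀ hly]
      have := Real.log_le_log (div_pos hlX hly) hr
      linarith
  linarith

lemma shortSum_triv {N : ℕ} (χ : DirichletCharacter ℂ N) (Y : ℕ) : ‖shortSum N χ Y‖ ≤ Y := by
  unfold shortSum
  refine (norm_sum_le _ _).trans ?_
  calc ∑ m ∈ Icc 1 Y, ‖χ (m : ZMod N)‖ ≤ ∑ _m ∈ Icc 1 Y, (1 : ℝ) :=
        sum_le_sum fun m _ => DirichletCharacter.norm_le_one χ _
    _ = Y := by simp

/-- the product of the exceptional primes -/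
lemma exc_prod (k y : ℕ) (D : ℤ) (hD0 : D ≠ 0) {N : ℕ} (χ : DirichletCharacter ℂ N)
    (h : ∀ l : ℕ, l.Prime → k < l → l ≤ y → l ≠ 2 → ¬ (l : ℤ) ∣ D → χ (l : ZMod N) = 1) :
    (∏ l ∈ exc χ y, l) ≤ (max k 2).factorial * D.natAbs := by
  classical
  apply Nat.le_of_dvd (Nat.mul_pos (Nat.factorial_pos _) (Int.natAbs_pos.mpr hD0))
  apply Finset.prod_primes_dvd
  · intro l hl
    unfold exc at hl
    exact (mem_filter.mp hl).2.1.prime
  · intro l hl
    unfold exc at hl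
    rw [mem_filter, mem_range] at hl
    obtain ⟨h1, h2, h3⟩ := hl
    by_cases h4 : l ≤ max k 2
    · exact Dvd.dvd.mul_right (Nat.dvd_factorial h2.pos h4) _
    · push Not at h4
      have hk : k < l := lt_of_le_of_lt (le_max_left _ _) h4
      have h2l : 2 < l := lt_of_le_of_lt (le_max_right _ _) h4
      by_contra hcon
      apply h3
      apply h l h2 hk (by omega) (by omega)
      intro hd
      exact hcon (Dvd.dvd.mul_left (Int.natCast_dvd.mp hd) _)

lemma exp_half_bounds : 1.64 < Real.exp (1 / 2) ∧ Real.exp (1 / 2) < 1.65 := by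
  have h1 : Real.exp (1 / 2) * Real.exp (1 / 2) = Real.exp 1 := by
    rw [← Real.exp_add]; norm_num
  have h2 := Real.exp_one_gt_d9
  have h3 := Real.exp_one_lt_d9
  have h0 := Real.exp_pos (1 / 2)
  constructor <;> nlinarith

/-- **A small integer which is a square modulo all small primes is a square** (Burgess, for all
moduli; the primes dividing the integer, and those dividing a further integer `B ≠ 0` of polynomial
size, are allowed). -/
theorem main2 (k : ℕ) (A ε : ℝ) (hε : 0 < ε) : ∀ᶠ y : ℕ in atTop, ∀ D B : ℤ, B ≠ 0 →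
    (|B| : ℝ) ≤ (y : ℝ) ^ A → (|D| : ℝ) ≤ (y : ℝ) ^ (4 * Real.exp (1 / 2) - ε) →
    (∀ p : ℕ, p.Prime → k < p → p ≤ y → ¬ (p : ℤ) ∣ B → ∃ t : ℤ, (p : ℤ) ∣ D - t ^ 2) →
      IsSquare D := by
  wlog hε1 : ε ≤ 1 generalizing ε
  · have h1 := this 1 one_pos le_rfl
    filter_upwards [h1, eventually_ge_atTop 1] with y hy hy1 D B hB0 hB hD hp
    refine hy D B hB0 hB (hD.trans ?_) hp
    apply Real.rpow_le_rpow_of_exponent_le (by exact_mod_cast hy1)
    linarith
  wlog hA : 0 ≤ A generalizing A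
  · filter_upwards [this 0 le_rfl, eventually_ge_atTop 1] with y hy hy1 D B hB0 hB hD hp
    refine hy D B hB0 (hB.trans ?_) hD hp
    apply Real.rpow_le_rpow_of_exponent_le (by exact_mod_cast hy1)
    linarith
  obtain ⟨he1, he2⟩ := exp_half_bounds
  set r := Real.exp (1 / 2) with hr
  -- parameters
  set η : ℝ := ε / 64 with hη
  have hη0 : 0 < η := by positivity
  obtain ⟨δ, hδ0, hbur⟩ := bur8 η hη0
  obtain ⟨M0, hM0⟩ := eventually_atTop.mp hbur
  obtain ⟨C, hC0, hfin⟩ := final_ineq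
  set κ : ℝ := r - ε / 16 with hκ
  have hκ1 : 1 ≤ κ := by rw [hκ]; linarith
  have hκ2 : Real.log κ < 1 / 2 := by
    rw [Real.log_lt_iff_lt_exp (by linarith)]
    rw [hκ, ← hr]
    linarith
  set γ : ℝ := 1 / 2 - Real.log κ with hγ
  have hγ0 : 0 < γ := by rw [hγ]; linarith
  have hκ3 : Real.log (3 / 2) < 1 / 2 := by
    rw [Real.log_lt_iff_lt_exp (by norm_num)]
    rw [← hr]; linarith
  set γ₁ : ℝ := 1 / 2 - Real.log (3 / 2) with hγ₁
  have hγ₁0 : 0 < γ₁ := by rw [hγ₁]; linarith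
  set β : ℝ := min (1 / 32) (min δ (η / 4)) with hβ
  have hβ0 : 0 < β := lt_min (by norm_num) (lt_min hδ0 (by positivity))
  have hβ1 : β ≤ 1 / 32 := min_le_left _ _
  have hβ2 : β ≤ δ := (min_le_right _ _).trans (min_le_left _ _)
  have hβ3 : β ≤ η / 4 := (min_le_right _ _).trans (min_le_right _ _)
  obtain ⟨C₁, hC₁0, hC₁⟩ := prod_rho_le (β / (7 + A)) (by positivity)
  set F : ℝ := ((max k 2).factorial : ℝ) with hF
  have hF1 : 1 ≤ F := by
    rw [hF]
    exact_mod_cast Nat.factorial_pos _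
  set C₂ : ℝ := C₁ * F ^ (β / (7 + A)) with hC₂
  have hC₂0 : 0 < C₂ := by positivity
  -- eventual inequalities
  have tc : Tendsto (fun q : ℕ => (q : ℝ)) atTop atTop := tendsto_natCast_atTop_atTop
  have f1 : ∀ᶠ x : ℝ in atTop, 4 * (1 + 2 * Real.log x) ≤ x ^ (1 / 16 : ℝ) := by
    have h1 := (isLittleO_log_rpow_atTop (show (0 : ℝ) < 1 / 16 by norm_num)).def
      (show (0 : ℝ) < 1 / 16 by norm_num)
    have h2 : ∀ᶠ x : ℝ in atTop, 8 ≤ x ^ (1 / 16 : ℝ) :=
      (tendsto_rpow_atTop (by norm_num : (0 : ℝ) < 1 / 16)).eventually_ge_atTop _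
    filter_upwards [h1, h2, eventually_ge_atTop 1] with x hx hx2 hx1
    have h3 : 0 ≤ Real.log x := Real.log_nonneg hx1
    rw [Real.norm_eq_abs, Real.norm_eq_abs, abs_of_nonneg h3, abs_of_nonneg (by positivity)] at hx
    linarith
  have f2 : ∀ᶠ x : ℝ in atTop, C₂ ≤ (γ₁ / 2) * x ^ (1 / 16 : ℝ) :=
    ((tendsto_rpow_atTop (by norm_num : (0 : ℝ) < 1 / 16)).const_mul_atTop
      (by positivity : (0 : ℝ) < γ₁ / 2)).eventually_ge_atTop _
  have f3 : ∀ᶠ x : ℝ in atTop, C₂ ≤ (γ / 2) * x ^ δ :=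
    ((tendsto_rpow_atTop hδ0).const_mul_atTop
      (by positivity : (0 : ℝ) < γ / 2)).eventually_ge_atTop _
  have f4 : ∀ᶠ x : ℝ in atTop, C₂ ≤ (γ / 2) * x ^ (η / 4) :=
    ((tendsto_rpow_atTop (by positivity : (0 : ℝ) < η / 4)).const_mul_atTop
      (by positivity : (0 : ℝ) < γ / 2)).eventually_ge_atTop _
  have f5 : ∀ᶠ x : ℝ in atTop, 16 ≤ x ^ (ε / 16) :=
    (tendsto_rpow_atTop (by positivity : (0 : ℝ) < ε / 16)).eventually_ge_atTop _
  have f6 : ∀ᶠ x : ℝ in atTop, 2 ≤ x ^ (1 / 4 : ℝ) :=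
    (tendsto_rpow_atTop (by norm_num : (0 : ℝ) < 1 / 4)).eventually_ge_atTop _
  have f7 : ∀ᶠ x : ℝ in atTop, 4 * C / min γ γ₁ + 1 ≤ Real.log x :=
    Real.tendsto_log_atTop.eventually_ge_atTop _
  filter_upwards [tc.eventually f1, tc.eventually f2, tc.eventually f3, tc.eventually f4,
    tc.eventually f5, tc.eventually f6, tc.eventually f7, eventually_ge_atTop (M0 + 16)]
    with y g1 g2 g3 g4 g5 g6 g7 hy D B hB0 hB hD hsqD
  by_contra hDsq
  have hD0 : D ≠ 0 := by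
    rintro rfl
    exact hDsq ⟨0, by norm_num⟩
  have hy16 : 16 ≤ y := by omega
  have hyr : (16 : ℝ) ≤ y := by exact_mod_cast hy16
  have hy0 : (0 : ℝ) < y := by linarith
  have hy1 : (1 : ℝ) ≤ y := by linarith
  have hly : 0 < Real.log y := Real.log_pos (by linarith)
  have hγm : 0 < min γ γ₁ := lt_min hγ0 hγ₁0
  have hCly : 2 * (C / Real.log y) < min γ γ₁ := by
    have h1 : 4 * C / min γ γ₁ < Real.log y := by linarith
    rw [div_lt_iff₀ hγm] at h1
    rw [← mul_div_assoc, div_lt_iff₀ hly]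
    linarith [mul_comm (min γ γ₁) (Real.log y)]
  obtain ⟨N, θ, hN0, hNodd, hNsq, hND, hN1, hchar⟩ := exists_char D hD0 hDsq
  haveI : NeZero N := ⟨hN0⟩
  haveI : NeZero (8 * N) := ⟨by omega⟩
  set χ := chi 8 N (psi θ) with hχ
  have hχ1 : χ ≠ 1 := chi_ne_one N hNodd hNsq θ hN1
  -- the exceptional primes
  have hgood : ∀ l : ℕ, l.Prime → k < l → l ≤ y → l ≠ 2 → ¬ (l : ℤ) ∣ D * B →
      χ (l : ZMod (8 * N)) = 1 := by
    intro l hl hkl hly2 hl2 hlDB
    have hlD : ¬ (l : ℤ) ∣ D := fun h => hlDB (Dvd.dvd.mul_right h _)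
    have hlB : ¬ (l : ℤ) ∣ B := fun h => hlDB (Dvd.dvd.mul_left h _)
    have h1 := hchar l hl hl2 hlD (hsqD l hl hkl hly2 hlB)
    rw [hχ, chi_nat, psi_apply, jchar_apply]
    exact_mod_cast h1
  have hprod := exc_prod k y (D * B) (mul_ne_zero hD0 hB0) χ hgood
  set E : ℝ := 4 * r - ε with hE
  have hE7 : E ≤ 7 := by rw [hE]; linarith
  have hDr : ((D.natAbs : ℕ) : ℝ) = |(D : ℝ)| := by
    rw [Nat.cast_natAbs]
    push_cast
    rfl
  have hBr : ((B.natAbs : ℕ) : ℝ) = |(B : ℝ)| := by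
    rw [Nat.cast_natAbs]
    push_cast
    rfl
  have hR : ∏ q ∈ exc χ y, rho q ≤ C₂ * (y : ℝ) ^ β := by
    refine (hC₁ (exc χ y) (F * (y : ℝ) ^ (7 + A)) ?_ ?_).trans ?_
    · intro q hq
      unfold exc at hq
      exact (mem_filter.mp hq).2.1
    · calc ((∏ l ∈ exc χ y, l : ℕ) : ℝ) ≤ (((max k 2).factorial * (D * B).natAbs : ℕ) : ℝ) := by
            exact_mod_cast hprod
        _ = F * (|(D : ℝ)| * |(B : ℝ)|) := by
            rw [Nat.cast_mul, Int.natAbs_mul, Nat.cast_mul, hDr, hBr]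
        _ ≤ F * ((y : ℝ) ^ (7 : ℝ) * (y : ℝ) ^ A) := by
            refine mul_le_mul_of_nonneg_left ?_ (by linarith)
            refine mul_le_mul (hD.trans ?_) hB (abs_nonneg _) (by positivity)
            exact Real.rpow_le_rpow_of_exponent_le hy1 hE7
        _ = F * (y : ℝ) ^ (7 + A) := by rw [← Real.rpow_add hy0]
    · rw [Real.mul_rpow (by linarith) (by positivity), ← Real.rpow_mul hy0.le, hC₂]
      have : (7 + A) * (β / (7 + A)) = β := by field_simp
      rw [this, ← mul_assoc]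
  set R := ∏ q ∈ exc χ y, rho q with hRdef
  have hexcp : ∀ q ∈ exc χ y, q.Prime := by
    intro q hq
    unfold exc at hq
    exact (mem_filter.mp hq).2.1
  have hR0 : 0 ≤ R := prod_nonneg fun q hq => by
    have := rho_one_le (hexcp q hq)
    linarith
  set M : ℝ := ((8 * N : ℕ) : ℝ) with hM
  have hM8 : 8 ≤ M := by
    rw [hM]
    exact_mod_cast (by omega : 8 ≤ 8 * N)
  have hMpos : 0 < M := by linarith
  have hM1 : 1 ≤ M := by linarith
  have hMD : M ≤ 8 * (y : ℝ) ^ E := by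
    have h1 : N ≤ D.natAbs := Nat.le_of_dvd (Int.natAbs_pos.mpr hD0) hND
    have h2 : (N : ℝ) ≤ |(D : ℝ)| := by
      rw [← hDr]
      exact_mod_cast h1
    rw [hM]
    push_cast
    linarith
  rcases le_or_gt M ((y : ℝ) ^ 2) with hcase | hcase
  · -- small modulus: Pólya–Vinogradov
    set T : ℝ := 4 * √M * (1 + Real.log M) with hT
    have hlM : 0 ≤ Real.log M := Real.log_nonneg hM1
    have hT0 : 0 ≤ T := by positivity
    have hPV : ∀ Y : ℕ, ‖shortSum (8 * N) χ Y‖ ≤ T := by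
      intro Y
      exact Pool.Agent.H38R2.CG.PVh.sum_le (8 * N) χ (by omega) hχ1 Y
    set X : ℕ := ⌈(y : ℝ) ^ (5 / 4 : ℝ)⌉₊ with hX
    have hXl : (y : ℝ) ^ (5 / 4 : ℝ) ≤ X := Nat.le_ceil _
    have hy54 : (1 : ℝ) ≤ (y : ℝ) ^ (5 / 4 : ℝ) := Real.one_le_rpow hy1 (by norm_num)
    have hXu : (X : ℝ) ≤ (y : ℝ) ^ (3 / 2 : ℝ) := by
      have h1 : (X : ℝ) ≤ (y : ℝ) ^ (5 / 4 : ℝ) + 1 := (Nat.ceil_lt_add_one (by positivity)).le
      have h2 : (y : ℝ) ^ (3 / 2 : ℝ) = (y : ℝ) ^ (1 / 4 : ℝ) * (y : ℝ) ^ (5 / 4 : ℝ) := by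
        rw [← Real.rpow_add hy0]; norm_num
      rw [h2]
      calc (X : ℝ) ≤ 2 * (y : ℝ) ^ (5 / 4 : ℝ) := by linarith
        _ ≤ (y : ℝ) ^ (1 / 4 : ℝ) * (y : ℝ) ^ (5 / 4 : ℝ) :=
            mul_le_mul_of_nonneg_right g6 (by linarith)
    have hX1 : 1 ≤ X := by
      have : (1 : ℝ) ≤ X := hy54.trans hXl
      exact_mod_cast this
    have hXpos : (0 : ℝ) < X := by exact_mod_cast hX1
    have hbase : ∀ Y ≤ X, ‖shortSum (8 * N) χ Y‖ ≤ 0 * Y + √T * √Y := by
      intro Y _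
      rw [zero_mul, zero_add, ← Real.sqrt_mul hT0]
      apply Real.le_sqrt_of_sq_le
      have h1 := hPV Y
      have h2 := shortSum_triv χ Y
      rw [pow_two]
      exact mul_le_mul h1 h2 (norm_nonneg _) hT0
    have hGX := G_bound χ (exc χ y) hexcp X 0 (√T) le_rfl (Real.sqrt_nonneg _) hbase X le_rfl
    rw [← hRdef, zero_mul, zero_add] at hGX
    -- bound for T
    have hTy : T ≤ (y : ℝ) ^ (17 / 16 : ℝ) := by
      have h1 : √M ≤ y := by
        rw [Real.sqrt_le_left hy0.le]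
        exact hcase
      have h2 : Real.log M ≤ 2 * Real.log y := by
        have := Real.log_le_log hMpos hcase
        rwa [Real.log_pow, Nat.cast_ofNat] at this
      calc T ≤ 4 * y * (1 + 2 * Real.log y) := by
            rw [hT]
            gcongr
        _ = y * (4 * (1 + 2 * Real.log y)) := by ring
        _ ≤ y * (y : ℝ) ^ (1 / 16 : ℝ) := by gcongr
        _ = (y : ℝ) ^ (17 / 16 : ℝ) := by
            nth_rewrite 1 [← Real.rpow_one (y : ℝ)]
            rw [← Real.rpow_add hy0]; norm_num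
    have hTs : √T ≤ (y : ℝ) ^ (17 / 32 : ℝ) := by
      calc √T ≤ √((y : ℝ) ^ (17 / 16 : ℝ)) := Real.sqrt_le_sqrt hTy
        _ = (y : ℝ) ^ (17 / 32 : ℝ) := by
            rw [Real.sqrt_eq_rpow, ← Real.rpow_mul hy0.le]; norm_num
    have hXs : (y : ℝ) ^ (5 / 8 : ℝ) ≤ √X := by
      calc (y : ℝ) ^ (5 / 8 : ℝ) = √((y : ℝ) ^ (5 / 4 : ℝ)) := by
            rw [Real.sqrt_eq_rpow, ← Real.rpow_mul hy0.le]; norm_num
        _ ≤ √X := Real.sqrt_le_sqrt hXl
    have hθ : ‖G χ (exc χ y) X‖ ≤ (γ₁ / 2) * X := by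
      refine hGX.trans ?_
      have h1 : R * √T ≤ (γ₁ / 2) * √X := by
        calc R * √T ≤ (C₂ * (y : ℝ) ^ β) * (y : ℝ) ^ (17 / 32 : ℝ) :=
              mul_le_mul hR hTs (Real.sqrt_nonneg _) (by positivity)
          _ ≤ (C₂ * (y : ℝ) ^ (1 / 32 : ℝ)) * (y : ℝ) ^ (17 / 32 : ℝ) := by
              gcongr
          _ = C₂ * (y : ℝ) ^ (9 / 16 : ℝ) := by
              rw [mul_assoc, ← Real.rpow_add hy0]; norm_num
          _ ≤ ((γ₁ / 2) * (y : ℝ) ^ (1 / 16 : ℝ)) * (y : ℝ) ^ (9 / 16 : ℝ) := by gcongr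
          _ = (γ₁ / 2) * (y : ℝ) ^ (5 / 8 : ℝ) := by
              rw [mul_assoc, ← Real.rpow_add hy0]; norm_num
          _ ≤ (γ₁ / 2) * √X := by gcongr
      calc R * (√T * √X) = (R * √T) * √X := by ring
        _ ≤ ((γ₁ / 2) * √X) * √X := mul_le_mul_of_nonneg_right h1 (Real.sqrt_nonneg _)
        _ = (γ₁ / 2) * X := by rw [mul_assoc, Real.mul_self_sqrt hXpos.le]
    have hlogX : Real.log X ≤ 3 / 2 * Real.log y := by
      have := Real.log_le_log hXpos hXu
      rwa [Real.log_rpow hy0] at this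
    have := hfin (8 * N) χ y X (3 / 2) (γ₁ / 2) (by omega) hX1 (by norm_num) hlogX hθ
    have h5 : min γ γ₁ ≤ γ₁ := min_le_right _ _
    linarith
  · -- large modulus: Burgess
    have hyM : (y : ℝ) ≤ M ^ (1 / 2 : ℝ) := by
      have h1 : ((y : ℝ) ^ 2) ^ (1 / 2 : ℝ) ≤ M ^ (1 / 2 : ℝ) :=
        Real.rpow_le_rpow (by positivity) hcase.le (by norm_num)
      rwa [← Real.sqrt_eq_rpow, Real.sqrt_sq hy0.le] at h1
    have hMM0 : M0 ≤ 8 * N := by
      have h1 : (y : ℝ) ≤ M := by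
        have h0 : (y : ℝ) ≤ (y : ℝ) ^ 2 := by
          rw [pow_two]
          exact le_mul_of_one_le_left hy0.le hy1
        linarith
      have h2 : y ≤ 8 * N := by
        rw [hM] at h1
        exact_mod_cast h1
      omega
    have hburX := hM0 (8 * N) hMM0 N rfl hNodd hNsq (psi θ)
    rw [← hχ, ← hM] at hburX
    set Y₀ : ℝ := M ^ (1 / 4 + η) with hY₀
    have hY₀1 : 1 ≤ Y₀ := Real.one_le_rpow hM1 (by positivity)
    have hyη : 1 ≤ (y : ℝ) ^ η := Real.one_le_rpow hy1 hη0.le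
    set X : ℕ := ⌈Y₀ * (y : ℝ) ^ η⌉₊ with hX
    have hXl : Y₀ * (y : ℝ) ^ η ≤ X := Nat.le_ceil _
    have hX1r : 1 ≤ Y₀ * (y : ℝ) ^ η := one_le_mul_of_one_le_of_one_le hY₀1 hyη
    have hXu : (X : ℝ) ≤ 2 * (Y₀ * (y : ℝ) ^ η) := by
      have h1 : (X : ℝ) ≤ Y₀ * (y : ℝ) ^ η + 1 := (Nat.ceil_lt_add_one (by positivity)).le
      linarith
    have hX1 : 1 ≤ X := by
      have : (1 : ℝ) ≤ X := hX1r.trans hXl
      exact_mod_cast this
    have hXpos : (0 : ℝ) < X := by exact_mod_cast hX1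
    have hη64 : η ≤ 1 / 64 := by rw [hη]; linarith
    -- X is at most the square root of M
    have hXM : (X : ℝ) ≤ M ^ (1 / 2 + δ) := by
      have h1 : (y : ℝ) ^ η ≤ M ^ (η / 2) := by
        calc (y : ℝ) ^ η ≤ (M ^ (1 / 2 : ℝ)) ^ η := Real.rpow_le_rpow hy0.le hyM hη0.le
          _ = M ^ (η / 2) := by rw [← Real.rpow_mul hMpos.le]; congr 1; ring
      have h2 : (2 : ℝ) ≤ M ^ (1 / 8 : ℝ) := by
        have h3 : (2 : ℝ) ≤ (y : ℝ) ^ (1 / 4 : ℝ) := g6
        have h4 : (y : ℝ) ^ (1 / 4 : ℝ) ≤ (M ^ (1 / 2 : ℝ)) ^ (1 / 4 : ℝ) :=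
          Real.rpow_le_rpow hy0.le hyM (by norm_num)
        rw [← Real.rpow_mul hMpos.le] at h4
        norm_num at h4
        norm_num at h3 ⊢
        linarith
      calc (X : ℝ) ≤ 2 * (Y₀ * (y : ℝ) ^ η) := hXu
        _ ≤ M ^ (1 / 8 : ℝ) * (M ^ (1 / 4 + η) * M ^ (η / 2)) := by gcongr
        _ = M ^ (1 / 8 + (1 / 4 + η + η / 2)) := by
            rw [← Real.rpow_add hMpos, ← Real.rpow_add hMpos]
        _ ≤ M ^ (1 / 2 + δ) := by
            apply Real.rpow_le_rpow_of_exponent_le hM1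
            linarith
    set dl : ℝ := M ^ (-δ) with hdl
    have hdl0 : 0 < dl := Real.rpow_pos_of_pos hMpos _
    have hbase : ∀ Y ≤ X, ‖shortSum (8 * N) χ Y‖ ≤ dl * Y + √Y₀ * √Y := by
      intro Y hYX
      have hYX' : (Y : ℝ) ≤ X := by exact_mod_cast hYX
      rcases le_or_gt Y₀ (Y : ℝ) with h1 | h1
      · have h2 := hburX Y h1 (hYX'.trans hXM)
        have h3 : 0 ≤ √Y₀ * √Y := by positivity
        linarith
      · have h2 := shortSum_triv χ Y
        have h3 : (Y : ℝ) ≤ √Y₀ * √Y := by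
          rw [← Real.sqrt_mul (by linarith)]
          apply Real.le_sqrt_of_sq_le
          rw [pow_two]
          exact mul_le_mul_of_nonneg_right h1.le (Nat.cast_nonneg _)
        have h4 : 0 ≤ dl * Y := by positivity
        linarith
    have hGX := G_bound χ (exc χ y) hexcp X dl (√Y₀) hdl0.le (Real.sqrt_nonneg _) hbase X le_rfl
    rw [← hRdef] at hGX
    have hθ : ‖G χ (exc χ y) X‖ ≤ γ * X := by
      refine hGX.trans ?_
      have h1 : R * dl ≤ γ / 2 := by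
        have e1 : dl ≤ (y : ℝ) ^ (-(2 * δ)) := by
          calc dl ≤ ((y : ℝ) ^ 2) ^ (-δ) := by
                apply Real.rpow_le_rpow_of_nonpos (by positivity) hcase.le (by linarith)
            _ = (y : ℝ) ^ (-(2 * δ)) := by
                rw [← Real.rpow_natCast, ← Real.rpow_mul hy0.le]; congr 1; push_cast; ring
        calc R * dl ≤ (C₂ * (y : ℝ) ^ β) * (y : ℝ) ^ (-(2 * δ)) :=
              mul_le_mul hR e1 hdl0.le (by positivity)
          _ ≤ (C₂ * (y : ℝ) ^ δ) * (y : ℝ) ^ (-(2 * δ)) := by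
              gcongr
          _ = C₂ * (y : ℝ) ^ (-δ) := by
              rw [mul_assoc, ← Real.rpow_add hy0]; congr 2; ring
          _ ≤ ((γ / 2) * (y : ℝ) ^ δ) * (y : ℝ) ^ (-δ) := by gcongr
          _ = γ / 2 := by
              rw [mul_assoc, ← Real.rpow_add hy0, add_neg_cancel, Real.rpow_zero, mul_one]
      have h2 : R * √Y₀ ≤ (γ / 2) * √X := by
        have e1 : √Y₀ * (y : ℝ) ^ (η / 2) ≤ √X := by
          calc √Y₀ * (y : ℝ) ^ (η / 2) = √(Y₀ * (y : ℝ) ^ η) := by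
                rw [Real.sqrt_mul (by linarith), Real.sqrt_eq_rpow ((y : ℝ) ^ η),
                  ← Real.rpow_mul hy0.le]
                congr 2
                ring
            _ ≤ √X := Real.sqrt_le_sqrt hXl
        calc R * √Y₀ ≤ (C₂ * (y : ℝ) ^ β) * √Y₀ :=
              mul_le_mul_of_nonneg_right hR (Real.sqrt_nonneg _)
          _ ≤ (C₂ * (y : ℝ) ^ (η / 4)) * √Y₀ := by
              gcongr
          _ ≤ (((γ / 2) * (y : ℝ) ^ (η / 4)) * (y : ℝ) ^ (η / 4)) * √Y₀ := by gcongr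
          _ = (γ / 2) * (√Y₀ * (y : ℝ) ^ (η / 2)) := by
              rw [mul_assoc (γ / 2), ← Real.rpow_add hy0]
              have : η / 4 + η / 4 = η / 2 := by ring
              rw [this]
              ring
          _ ≤ (γ / 2) * √X := by gcongr
      calc R * (dl * X + √Y₀ * √X) = (R * dl) * X + (R * √Y₀) * √X := by ring
        _ ≤ (γ / 2) * X + ((γ / 2) * √X) * √X :=
            add_le_add (mul_le_mul_of_nonneg_right h1 hXpos.le)
              (mul_le_mul_of_nonneg_right h2 (Real.sqrt_nonneg _))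
        _ = γ * X := by rw [mul_assoc, Real.mul_self_sqrt hXpos.le]; ring
    have hlogX : Real.log X ≤ κ * Real.log y := by
      have h1 : (X : ℝ) ≤ (y : ℝ) ^ κ := by
        have e1 : Y₀ ≤ 8 * (y : ℝ) ^ (E * (1 / 4 + η)) := by
          calc Y₀ ≤ (8 * (y : ℝ) ^ E) ^ (1 / 4 + η) :=
                Real.rpow_le_rpow hMpos.le hMD (by positivity)
            _ = (8 : ℝ) ^ (1 / 4 + η) * (y : ℝ) ^ (E * (1 / 4 + η)) := by
                rw [Real.mul_rpow (by norm_num) (by positivity), ← Real.rpow_mul hy0.le]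
            _ ≤ (8 : ℝ) ^ (1 : ℝ) * (y : ℝ) ^ (E * (1 / 4 + η)) := by
                gcongr
                · norm_num
                · linarith
            _ = 8 * (y : ℝ) ^ (E * (1 / 4 + η)) := by rw [Real.rpow_one]
        calc (X : ℝ) ≤ 2 * (Y₀ * (y : ℝ) ^ η) := hXu
          _ ≤ 2 * ((8 * (y : ℝ) ^ (E * (1 / 4 + η))) * (y : ℝ) ^ η) := by gcongr
          _ = 16 * (y : ℝ) ^ (E * (1 / 4 + η) + η) := by
              rw [Real.rpow_add hy0]; ring
          _ ≤ (y : ℝ) ^ (ε / 16) * (y : ℝ) ^ (E * (1 / 4 + η) + η) := by gcongr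
          _ = (y : ℝ) ^ (ε / 16 + (E * (1 / 4 + η) + η)) := by rw [← Real.rpow_add hy0]
          _ ≤ (y : ℝ) ^ κ := by
              apply Real.rpow_le_rpow_of_exponent_le hy1
              rw [hκ]
              have : E * (1 / 4 + η) + η ≤ r - ε / 4 + 8 * η := by
                have e2 : E * η ≤ 7 * η := mul_le_mul_of_nonneg_right hE7 hη0.le
                have e3 : E * (1 / 4) = r - ε / 4 := by rw [hE]; ring
                linarith
              have e4 : 8 * η = ε / 8 := by rw [hη]; ring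
              linarith
      have := Real.log_le_log hXpos h1
      rwa [Real.log_rpow hy0] at this
    have := hfin (8 * N) χ y X κ γ (by omega) hX1 hκ1 hlogX hθ
    have h5 : min γ γ₁ ≤ γ := min_le_left _ _
    linarith

/-- **A small integer which is a square modulo all small primes is a square** (Burgess, for all
moduli; the primes dividing the integer are allowed). -/
theorem main (k : ℕ) (ε : ℝ) (hε : 0 < ε) : ∀ᶠ y : ℕ in atTop, ∀ D : ℤ,
    (|D| : ℝ) ≤ (y : ℝ) ^ (4 * Real.exp (1 / 2) - ε) →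
    (∀ p : ℕ, p.Prime → k < p → p ≤ y → ∃ t : ℤ, (p : ℤ) ∣ D - t ^ 2) → IsSquare D := by
  filter_upwards [main2 k 0 ε hε] with y hy D hD hp
  refine hy D 1 one_ne_zero ?_ hD fun p h1 h2 h3 _ => hp p h1 h2 h3
  rw [Real.rpow_zero, Int.cast_one, abs_one]

end Pool.Agent.R852.BC
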