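import Pool.Agent.R852.BC.Loc
import Pool.Agent.H471R4.BW.MOM
import Pool.Agent.H471R4.BW.BIN
import Pool.Agent.H471R4.BW.TUP

set_option autoImplicit false

/-! The moment of the shifted sums of a real character modulo `q N`. -/

namespace Pool.Agent.R852.BC

open Finset Pool.Agent.H471R4.BW

lemma sum_gcd_Ioc (N B : ℕ) (hN : N ≠ 0) : ∑ t ∈ Ioc 0 B, Nat.gcd N t ≤ B * N.divisors.card := by
  calc ∑ t ∈ Ioc 0 B, Nat.gcd N t ≤ ∑ t ∈ Ioc 0 B, ∑ d ∈ N.divisors.filter (fun d => d ∣ t), d := by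
        refine sum_le_sum fun t _ => ?_
        refine Finset.single_le_sum (f := fun d => d) (fun _ _ => Nat.zero_le _) ?_
        rw [mem_filter, Nat.mem_divisors]
        exact ⟨⟨Nat.gcd_dvd_left _ _, hN⟩, Nat.gcd_dvd_right _ _⟩
    _ = ∑ d ∈ N.divisors, ∑ t ∈ (Ioc 0 B).filter (fun t => d ∣ t), d := by
        simp only [sum_filter]
        rw [sum_comm]
    _ ≤ ∑ _d ∈ N.divisors, B := by
        refine sum_le_sum fun d _ => ?_
        rw [sum_const, smul_eq_mul, Nat.Ioc_filter_dvd_card_eq_div]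
        exact Nat.div_mul_le_self B d
    _ = B * N.divisors.card := by rw [sum_const, smul_eq_mul, mul_comm]

/-- the weight of a pair -/
def GG (N v u : ℕ) : ℕ := if u = v then 0 else Nat.gcd N (dist' v u)

lemma sum_GG (N B v : ℕ) (hN : N ≠ 0) (hv : v < B) :
    ∑ u ∈ range B, GG N v u ≤ 2 * B * N.divisors.card := by
  have h1 : ∑ u ∈ range B, GG N v u =
      ∑ u ∈ (range B).filter (fun u => u ≠ v), Nat.gcd N (dist' v u) := by
    rw [sum_filter]
    refine sum_congr rfl fun u _ => ?_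
    unfold GG
    split_ifs with h <;> simp_all
  have hmap : ∀ u ∈ (range B).filter (fun u => u ≠ v), dist' v u ∈ Ioc 0 B := by
    intro u hu
    rw [mem_filter, mem_range] at hu
    rw [mem_Ioc]
    unfold dist'
    omega
  rw [h1, ← Finset.sum_fiberwise_of_maps_to hmap]
  calc ∑ t ∈ Ioc 0 B, ∑ u ∈ ((range B).filter (fun u => u ≠ v)).filter (fun u => dist' v u = t),
        Nat.gcd N (dist' v u) ≤ ∑ t ∈ Ioc 0 B, 2 * Nat.gcd N t := by
        refine sum_le_sum fun t _ => ?_
        have h2 : ∑ u ∈ ((range B).filter (fun u => u ≠ v)).filter (fun u => dist' v u = t),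
            Nat.gcd N (dist' v u) =
            ∑ _u ∈ ((range B).filter (fun u => u ≠ v)).filter (fun u => dist' v u = t),
              Nat.gcd N t := by
          refine sum_congr rfl fun u hu => ?_
          rw [(mem_filter.mp hu).2]
        rw [h2, sum_const, smul_eq_mul]
        refine Nat.mul_le_mul_right _ ?_
        have h3 : ((range B).filter (fun u => u ≠ v)).filter (fun u => dist' v u = t) ⊆
            ({v + t, v - t} : Finset ℕ) := by
          intro u hu
          have h4 := (mem_filter.mp hu).2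
          rw [mem_insert, mem_singleton]
          unfold dist' at h4
          omega
        exact (card_le_card h3).trans Finset.card_le_two
    _ = 2 * ∑ t ∈ Ioc 0 B, Nat.gcd N t := by rw [mul_sum]
    _ ≤ 2 * (B * N.divisors.card) := Nat.mul_le_mul_left _ (sum_gcd_Ioc N B hN)
    _ = _ := by ring

lemma sum_prod_G {ι : Type} [Fintype ι] [DecidableEq ι] (i₀ : ι) (B : ℕ) (G : ℕ → ℕ → ℕ) (C : ℕ)
    (hG : ∀ v < B, ∑ u ∈ range B, G v u ≤ C) :
    ∑ w : ι → Fin B, ∏ j ∈ univ.erase i₀, G (w i₀) (w j) ≤ B * C ^ (Fintype.card ι - 1) := by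
  let H : Fin B → ι → Fin B → ℕ := fun v j u => if j = i₀ then (if u = v then 1 else 0) else G v u
  calc ∑ w : ι → Fin B, ∏ j ∈ univ.erase i₀, G (w i₀) (w j)
      ≤ ∑ w : ι → Fin B, ∑ v : Fin B, ∏ j, H v j (w j) := by
        refine sum_le_sum fun w _ => ?_
        have h1 : ∏ j, H (w i₀) j (w j) = ∏ j ∈ univ.erase i₀, G (w i₀) (w j) := by
          rw [← Finset.mul_prod_erase univ _ (mem_univ i₀)]
          have h2 : H (w i₀) i₀ (w i₀) = 1 := by simp [H]
          rw [h2, one_mul]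
          refine prod_congr rfl fun j hj => ?_
          have : j ≠ i₀ := (mem_erase.mp hj).1
          simp [H, this]
        rw [← h1]
        exact Finset.single_le_sum (f := fun v => ∏ j, H v j (w j)) (fun _ _ => Nat.zero_le _)
          (mem_univ (w i₀))
    _ = ∑ v : Fin B, ∑ w : ι → Fin B, ∏ j, H v j (w j) := sum_comm
    _ = ∑ v : Fin B, ∏ j, ∑ u : Fin B, H v j u := by
        refine sum_congr rfl fun v _ => ?_
        rw [Finset.prod_univ_sum, Fintype.piFinset_univ]
    _ ≤ ∑ _v : Fin B, C ^ (Fintype.card ι - 1) := by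
        refine sum_le_sum fun v _ => ?_
        rw [← Finset.mul_prod_erase univ _ (mem_univ i₀)]
        have h2 : ∑ u : Fin B, H v i₀ u = 1 := by simp [H]
        rw [h2, one_mul]
        have h3 : ∏ j ∈ univ.erase i₀, ∑ u : Fin B, H v j u ≤ ∏ _j ∈ univ.erase i₀, C := by
          refine Finset.prod_le_prod' fun j hj => ?_
          have : j ≠ i₀ := (mem_erase.mp hj).1
          simp only [H, this, if_false]
          rw [← Finset.sum_range (fun u => G v u)]
          exact hG v v.2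
        refine h3.trans (le_of_eq ?_)
        rw [prod_const, card_erase_of_mem (mem_univ _), card_univ]
    _ = B * C ^ (Fintype.card ι - 1) := by simp

/-- the constant of the moment -/
noncomputable def KK (q N r : ℕ) : ℝ :=
  q * (10 * r : ℝ) ^ N.primeFactors.card * (2 * r * (2 * N.divisors.card : ℝ) ^ (2 * r - 1))

lemma KK_nonneg (q N r : ℕ) : 0 ≤ KK q N r := by unfold KK; positivity

lemma exists_of_uniq {r : ℕ} {b c : Fin r → ℕ} (h : Uniq b c) :
    ∃ i₀ : Fin r ⊕ Fin r, ∀ j, j ≠ i₀ → vals b c j ≠ vals b c i₀ := by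
  classical
  obtain ⟨v, hv⟩ := h
  have hcase : ((univ.filter fun i => b i = v).card = 1 ∧ (univ.filter fun i => c i = v).card = 0) ∨
      ((univ.filter fun i => b i = v).card = 0 ∧ (univ.filter fun i => c i = v).card = 1) := by
    omega
  rcases hcase with ⟨h1, h2⟩ | ⟨h1, h2⟩
  · obtain ⟨i, hi⟩ := Finset.card_eq_one.mp h1
    rw [Finset.card_eq_zero, Finset.filter_eq_empty_iff] at h2
    have hbi : b i = v := (mem_filter.mp (hi ▸ mem_singleton_self i : i ∈ univ.filter fun i => b i = v)).2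
    refine ⟨Sum.inl i, ?_⟩
    rintro (j | j) hj hjv
    · have h3 : j ∈ univ.filter fun i => b i = v := by
        rw [mem_filter]
        exact ⟨mem_univ _, hjv.trans hbi⟩
      rw [hi, mem_singleton] at h3
      exact hj (by rw [h3])
    · exact h2 (mem_univ j) (hjv.trans hbi)
  · obtain ⟨i, hi⟩ := Finset.card_eq_one.mp h2
    rw [Finset.card_eq_zero, Finset.filter_eq_empty_iff] at h1
    have hbi : c i = v := (mem_filter.mp (hi ▸ mem_singleton_self i : i ∈ univ.filter fun i => c i = v)).2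
    refine ⟨Sum.inr i, ?_⟩
    rintro (j | j) hj hjv
    · exact h1 (mem_univ j) (hjv.trans hbi)
    · have h3 : j ∈ univ.filter fun i => c i = v := by
        rw [mem_filter]
        exact ⟨mem_univ _, hjv.trans hbi⟩
      rw [hi, mem_singleton] at h3
      exact hj (by rw [h3])

open Classical in
open MOMx in
theorem mom_chi (q N r B : ℕ) [NeZero q] [NeZero N] [NeZero (q * N)] (hco : Nat.Coprime q N)
    (hodd : Odd N) (hsq : Squarefree N) (ψ : DirichletCharacter ℂ q) (hr : 1 ≤ r) :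
    ∑ x : ZMod (q * N), ‖∑ b ∈ range B, chi q N ψ (x + (b : ZMod (q * N)))‖ ^ (2 * r) ≤
      (r : ℝ) ^ (2 * r) * (B : ℝ) ^ r * ((q * N : ℕ) : ℝ) +
        KK q N r * (B : ℝ) ^ (2 * r) * Real.sqrt ((q * N : ℕ) : ℝ) := by
  set χ := chi q N ψ with hχ
  have hW : ((∑ x : ZMod (q * N), ‖∑ b ∈ range B, χ (x + (b : ZMod (q * N)))‖ ^ (2 * r) : ℝ) : ℂ) =
      ∑ w : (Fin r → Fin B) × (Fin r → Fin B), ∑ x : ZMod (q * N), term χ r B w.1 w.2 x := by
    rw [Finset.sum_comm]
    push_cast
    refine Finset.sum_congr rfl fun x _ => ?_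
    have := expand χ r B x
    push_cast at this
    rw [this, ← Finset.univ_product_univ, Finset.sum_product]
  have hW0 : 0 ≤ ∑ x : ZMod (q * N), ‖∑ b ∈ range B, χ (x + (b : ZMod (q * N)))‖ ^ (2 * r) :=
    Finset.sum_nonneg fun x _ => by positivity
  have hW1 : ∑ x : ZMod (q * N), ‖∑ b ∈ range B, χ (x + (b : ZMod (q * N)))‖ ^ (2 * r) =
      ‖∑ w : (Fin r → Fin B) × (Fin r → Fin B), ∑ x : ZMod (q * N), term χ r B w.1 w.2 x‖ := by
    rw [← hW, Complex.norm_real, Real.norm_eq_abs, abs_of_nonneg hW0]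
  rw [hW1]
  refine (norm_sum_le _ _).trans ?_
  rw [← Finset.sum_filter_add_sum_filter_not Finset.univ
    (fun w : (Fin r → Fin B) × (Fin r → Fin B) =>
      ¬ Uniq (fun i => (w.1 i : ℕ)) (fun i => (w.2 i : ℕ)))]
  refine add_le_add ?_ ?_
  · have h1 : ∀ w ∈ Finset.univ.filter (fun w : (Fin r → Fin B) × (Fin r → Fin B) =>
        ¬ Uniq (fun i => (w.1 i : ℕ)) (fun i => (w.2 i : ℕ))),
        ‖∑ x : ZMod (q * N), term χ r B w.1 w.2 x‖ ≤ ((q * N : ℕ) : ℝ) := by
      intro w _
      exact sumT_le (q * N) χ (fun i => (w.1 i : ℕ)) (fun i => (w.2 i : ℕ))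
    refine (Finset.sum_le_card_nsmul _ _ _ h1).trans ?_
    rw [nsmul_eq_mul]
    have h2 : (((Finset.univ.filter (fun w : (Fin r → Fin B) × (Fin r → Fin B) =>
        ¬ Uniq (fun i => (w.1 i : ℕ)) (fun i => (w.2 i : ℕ)))).card : ℕ) : ℝ) ≤
        (r : ℝ) ^ (2 * r) * (B : ℝ) ^ r := by
      exact_mod_cast tup r B hr
    exact mul_le_mul_of_nonneg_right h2 (Nat.cast_nonneg _)
  · set c0 : ℝ := q * ((10 * r : ℝ) ^ N.primeFactors.card * Real.sqrt N) with hc0
    have hc0' : 0 ≤ c0 := by rw [hc0]; positivity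
    have h1 : ∀ w ∈ Finset.univ.filter (fun w : (Fin r → Fin B) × (Fin r → Fin B) =>
        ¬ ¬ Uniq (fun i => (w.1 i : ℕ)) (fun i => (w.2 i : ℕ))),
        ‖∑ x : ZMod (q * N), term χ r B w.1 w.2 x‖ ≤
          c0 * ((∑ i₀ : Fin r ⊕ Fin r, ∏ j ∈ univ.erase i₀,
            GG N (vals (fun i => (w.1 i : ℕ)) (fun i => (w.2 i : ℕ)) i₀)
              (vals (fun i => (w.1 i : ℕ)) (fun i => (w.2 i : ℕ)) j) : ℕ) : ℝ) := by
      intro w hw
      rw [Finset.mem_filter] at hw
      obtain ⟨i₀, hi₀⟩ := exists_of_uniq (not_not.1 hw.2)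
      have h2 := chi_le q N hco hodd hsq ψ (fun i => (w.1 i : ℕ)) (fun i => (w.2 i : ℕ)) i₀
      have h3 : gfac N (fun i => (w.1 i : ℕ)) (fun i => (w.2 i : ℕ)) i₀ =
          ∏ j ∈ univ.erase i₀, GG N (vals (fun i => (w.1 i : ℕ)) (fun i => (w.2 i : ℕ)) i₀)
              (vals (fun i => (w.1 i : ℕ)) (fun i => (w.2 i : ℕ)) j) := by
        unfold gfac
        refine prod_congr rfl fun j hj => ?_
        unfold GG
        rw [if_neg (hi₀ j (mem_erase.mp hj).1)]
      have h4 : gfac N (fun i => (w.1 i : ℕ)) (fun i => (w.2 i : ℕ)) i₀ ≤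
          ∑ i₀ : Fin r ⊕ Fin r, ∏ j ∈ univ.erase i₀,
            GG N (vals (fun i => (w.1 i : ℕ)) (fun i => (w.2 i : ℕ)) i₀)
              (vals (fun i => (w.1 i : ℕ)) (fun i => (w.2 i : ℕ)) j) := by
        rw [h3]
        exact Finset.single_le_sum (f := fun i₀ => ∏ j ∈ univ.erase i₀,
            GG N (vals (fun i => (w.1 i : ℕ)) (fun i => (w.2 i : ℕ)) i₀)
              (vals (fun i => (w.1 i : ℕ)) (fun i => (w.2 i : ℕ)) j)) (fun _ _ => Nat.zero_le _)
          (mem_univ i₀)
      calc ‖∑ x : ZMod (q * N), term χ r B w.1 w.2 x‖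
          ≤ q * ((10 * r : ℝ) ^ N.primeFactors.card * Real.sqrt N *
            gfac N (fun i => (w.1 i : ℕ)) (fun i => (w.2 i : ℕ)) i₀) := h2
        _ = c0 * (gfac N (fun i => (w.1 i : ℕ)) (fun i => (w.2 i : ℕ)) i₀ : ℕ) := by
            rw [hc0]; ring
        _ ≤ _ := mul_le_mul_of_nonneg_left (by exact_mod_cast h4) hc0'
    refine (Finset.sum_le_sum h1).trans ?_
    refine (Finset.sum_le_sum_of_subset_of_nonneg (Finset.filter_subset _ _)
      (fun _ _ _ => mul_nonneg hc0' (Nat.cast_nonneg _))).trans ?_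
    rw [← Finset.mul_sum, ← Nat.cast_sum]
    have h5 : (∑ w : (Fin r → Fin B) × (Fin r → Fin B), ∑ i₀ : Fin r ⊕ Fin r, ∏ j ∈ univ.erase i₀,
        GG N (vals (fun i => (w.1 i : ℕ)) (fun i => (w.2 i : ℕ)) i₀)
          (vals (fun i => (w.1 i : ℕ)) (fun i => (w.2 i : ℕ)) j)) ≤
        2 * r * (B * (2 * B * N.divisors.card) ^ (2 * r - 1)) := by
      rw [Finset.sum_comm]
      calc _ ≤ ∑ _i₀ : Fin r ⊕ Fin r, (B * (2 * B * N.divisors.card) ^ (2 * r - 1)) := by
            refine sum_le_sum fun i₀ _ => ?_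
            have h6 := sum_prod_G i₀ B (GG N) (2 * B * N.divisors.card)
              (fun v hv => sum_GG N B v (NeZero.ne N) hv)
            have h7 : Fintype.card (Fin r ⊕ Fin r) = 2 * r := by simp; ring
            rw [h7] at h6
            refine le_trans (le_of_eq ?_) h6
            rw [← Equiv.sum_comp (Equiv.sumArrowEquivProdArrow (Fin r) (Fin r) (Fin B))]
            refine sum_congr rfl fun w _ => ?_
            refine prod_congr rfl fun j _ => ?_
            have h8 : ∀ k : Fin r ⊕ Fin r, vals (fun i =>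
                (((Equiv.sumArrowEquivProdArrow (Fin r) (Fin r) (Fin B)) w).1 i : ℕ)) (fun i =>
                (((Equiv.sumArrowEquivProdArrow (Fin r) (Fin r) (Fin B)) w).2 i : ℕ)) k =
                (w k : ℕ) := by
              rintro (k | k) <;> rfl
            rw [h8, h8]
        _ = _ := by
            rw [sum_const, card_univ, smul_eq_mul]
            congr 1
            simp
            ring
    have h9 : ((∑ w : (Fin r → Fin B) × (Fin r → Fin B), ∑ i₀ : Fin r ⊕ Fin r,
        ∏ j ∈ univ.erase i₀,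
        GG N (vals (fun i => (w.1 i : ℕ)) (fun i => (w.2 i : ℕ)) i₀)
          (vals (fun i => (w.1 i : ℕ)) (fun i => (w.2 i : ℕ)) j) : ℕ) : ℝ) ≤
        2 * r * (B * (2 * B * N.divisors.card) ^ (2 * r - 1)) := by exact_mod_cast h5
    have hpow : (B : ℝ) * (B : ℝ) ^ (2 * r - 1) = (B : ℝ) ^ (2 * r) := by
      rw [← pow_succ']
      congr 1
      omega
    have hsqrt : Real.sqrt (N : ℝ) ≤ Real.sqrt ((q * N : ℕ) : ℝ) := by
      apply Real.sqrt_le_sqrt
      have : N ≤ q * N := Nat.le_mul_of_pos_left N (Nat.pos_of_ne_zero (NeZero.ne q))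
      exact_mod_cast this
    calc _ ≤ c0 * (2 * r * (B * (2 * B * N.divisors.card) ^ (2 * r - 1))) :=
          mul_le_mul_of_nonneg_left h9 hc0'
      _ = KK q N r * (B : ℝ) ^ (2 * r) * Real.sqrt N := by
          rw [hc0, KK, ← hpow, show (2 * (B : ℝ) * (N.divisors.card : ℝ)) =
            (2 * N.divisors.card : ℝ) * B by ring, mul_pow _ (B : ℝ)]
          ring
      _ ≤ _ := mul_le_mul_of_nonneg_left hsqrt (mul_nonneg (KK_nonneg _ _ _) (by positivity))

end Pool.Agent.R852.BC
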