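import Pool.Agent.R852.BC.Gal

set_option autoImplicit false

/-! All ranks: discriminants and quadratic subfields. -/

namespace Pool.Agent.R852.BC

open Polynomial NumberField Filter Pool.Agent.R920.CH

theorem rank_discr (r : ℕ) (ε : ℝ) (hε : 0 < ε) : ∀ᶠ n : ℕ in atTop, ∀ P : ℤ[X], P.Monic →
    P.natDegree = r → RiemannRoch n P → ∀ Q : ℤ[X], Q.Monic → Q ∣ P →
    (|Q.discr| : ℤ) ≤ (n : ℝ) ^ (4 * Real.exp (1 / 2) - ε) → IsSquare Q.discr := by
  filter_upwards [main_sub r r 0 ε le_rfl hε] with n hn P hP hr hRR Q hQ hQP hD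
  refine hn Q.discr 1 one_ne_zero (by rw [Real.rpow_zero, Int.cast_one, abs_one])
    (by push_cast at hD; exact hD) ?_
  intro p hp hrp hpn _
  haveI : Fact p.Prime := ⟨hp⟩
  obtain ⟨x, hx⟩ := splits_mod P hP hr hRR p hrp (by omega)
  obtain ⟨y, hy⟩ := factor_splits P Q hP hQ hQP p x hx
  exact discr_sq_mod Q hQ rfl p y hy

/-- an integer which becomes a square in the splitting field is a square modulo the good primes -/
lemma field_aux {L : Type} [Field L] [i : Algebra ℚ L] {P : ℤ[X]} (hP : P.Monic)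
    [hs : IsSplittingField ℚ L (P.map (Int.castRingHom ℚ))] (T : ℝ) (hT : 1 ≤ T)
    (hc : ∀ i, ((|P.coeff i| : ℤ) : ℝ) ≤ T) (f : ℤ) (hf : IsSquare (f : L)) :
    ∃ b : ℤ, b ≠ 0 ∧ ((|b| : ℤ) : ℝ) ≤ (4 * T) ^ (P.natDegree ^ 2) ∧
      ∀ (p : ℕ) [Fact p.Prime], p ≠ 2 → ¬ (p : ℤ) ∣ b → ∀ {r : ℕ} (x : Fin r → ZMod p),
        P.map (Int.castRingHom (ZMod p)) = ∏ i, (X - C (x i)) → ∃ t : ℤ, (p : ℤ) ∣ f - t ^ 2 := by
  haveI : CharZero L := charZero_of_injective_algebraMap (algebraMap ℚ L).injective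
  obtain rfl : i = DivisionRing.toRatAlgebra := Subsingleton.elim _ _
  haveI : FiniteDimensional ℚ L := IsSplittingField.finiteDimensional L (P.map (Int.castRingHom ℚ))
  haveI : NumberField L := {}
  haveI : Normal ℚ L := Normal.of_isSplittingField (P.map (Int.castRingHom ℚ))
  haveI : IsGalois ℚ L := {}
  obtain ⟨α, hα⟩ := hf
  have hgen : Algebra.adjoin ℚ {u : L | aeval u P = 0} = ⊤ := by
    rw [eq_top_iff, ← hs.adjoin_rootSet']
    apply Algebra.adjoin_mono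
    intro u hu
    have hu' := (mem_rootSet.mp hu).2
    show aeval u P = 0
    rw [aeval_def, eval₂_map] at hu'
    have e : algebraMap ℤ L = (algebraMap ℚ L).comp (Int.castRingHom ℚ) := RingHom.ext_int _ _
    rw [aeval_def, e]
    exact hu'
  obtain ⟨b, hb0, hb⟩ := exists_b (L := L) hP
  exact ⟨b, hb0, b_bound hP b hb T hT hc, fun p _ hp2 hpb _ x hx =>
    sq_mod_of_split hP hgen b hb p hp2 hpb x hx f α hα.symm⟩

theorem rank_field (r : ℕ) (A ε : ℝ) (hε : 0 < ε) : ∀ᶠ n : ℕ in atTop, ∀ P : ℤ[X], P.Monic →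
    P.natDegree = r → RiemannRoch n P → (∀ i, (|P.coeff i| : ℤ) ≤ (n : ℝ) ^ A) →
    ∀ f : ℤ, (∃ α ∈ IntermediateField.adjoin ℚ {u : ℂ | u ∈ rootsOf P}, α ^ 2 = f) →
    (|f| : ℤ) ≤ (n : ℝ) ^ (4 * Real.exp (1 / 2) - ε) → IsSquare f := by
  set A' : ℝ := max A 0 with hA'
  have hA'0 : 0 ≤ A' := le_max_right _ _
  filter_upwards [main_sub (r + 2) r ((A' + 1) * (r ^ 2 : ℕ)) ε (by positivity) hε,
    eventually_ge_atTop 4] with n hn hn4 P hP hr hRR hA f hf hfn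
  have hn4' : (4 : ℝ) ≤ n := by exact_mod_cast hn4
  have hn0 : (0 : ℝ) < n := by linarith
  have hn1 : (1 : ℝ) ≤ n := by linarith
  obtain ⟨α, hαL, hα⟩ := hf
  have hset : {u : ℂ | u ∈ rootsOf P} = (P.map (Int.castRingHom ℚ)).rootSet ℂ := by
    ext u
    rw [Set.mem_setOf_eq, rootsOf, mem_roots (hP.map _).ne_zero, IsRoot.def, eval_map, mem_rootSet,
      aeval_def, eval₂_map]
    have e : (algebraMap ℚ ℂ).comp (Int.castRingHom ℚ) = Int.castRingHom ℂ := RingHom.ext_int _ _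
    rw [e]
    exact ⟨fun h => ⟨(hP.map _).ne_zero, h⟩, fun h => h.2⟩
  rw [hset] at hαL
  haveI hs : IsSplittingField ℚ (IntermediateField.adjoin ℚ ((P.map (Int.castRingHom ℚ)).rootSet ℂ))
      (P.map (Int.castRingHom ℚ)) :=
    IntermediateField.adjoin_rootSet_isSplittingField (IsAlgClosed.splits _)
  obtain ⟨b, hb0, hb, hmod⟩ := field_aux
    (L := IntermediateField.adjoin ℚ ((P.map (Int.castRingHom ℚ)).rootSet ℂ)) hP ((n : ℝ) ^ A')
    (Real.one_le_rpow hn1 hA'0)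
    (fun i => (hA i).trans (Real.rpow_le_rpow_of_exponent_le hn1 (le_max_left _ _))) f
    ⟨⟨α, hαL⟩, by
      apply Subtype.ext
      push_cast
      rw [← pow_two]
      exact hα.symm⟩
  refine hn f b hb0 ?_ (by push_cast at hfn; exact hfn) ?_
  · push_cast at hb
    refine hb.trans ?_
    rw [hr]
    calc (4 * (n : ℝ) ^ A') ^ (r ^ 2) ≤ ((n : ℝ) * (n : ℝ) ^ A') ^ (r ^ 2) := by gcongr
      _ = ((n : ℝ) ^ (A' + 1)) ^ (r ^ 2) := by
          rw [Real.rpow_add hn0, Real.rpow_one, mul_comm]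
      _ = (n : ℝ) ^ ((A' + 1) * (r ^ 2 : ℕ)) := by
          rw [← Real.rpow_natCast, ← Real.rpow_mul hn0.le]
  · intro p hp hrp hpn hpb
    haveI : Fact p.Prime := ⟨hp⟩
    obtain ⟨x, hx⟩ := splits_mod P hP hr hRR p (by omega) (by omega)
    exact hmod p (by omega) hpb x hx

end Pool.Agent.R852.BC
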